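import Mathlib
import Pool.Agent.helper37.NE.Defs
import Pool.Agent.helper7.ZD.Spec

/-!
# MP_baa4d7_al, THEOREM NZ: Q1 for EVERY finite extension `E` (every `d`, every `U`) for the class of THEOREM ZD. Definitions

The class: the defect group `D` has a central subgroup `Z` of bounded index and bounded rank, one invariant of which is dominating (`KY`, `KZ` with `k = 1`). It contains the class of THEOREM NE (`Z` cyclic) and the abelian groups of this kind.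

The file is the port (script) of `helper37/NE/Defs.lean`: `m : ℕ` is replaced by `m : Pm`, `Zg p e m` by `Zg p e m.a`, `BE p e m M` by `BQ p m M`, the numerical condition `2 * m + bz p + m / 2 ≤ e` by `EBc p m M`. `L2`, `iH`, `WW`, `Nw`, `rN'` are those of `Pool.Agent.NE`.
-/

set_option autoImplicit false

namespace Pool.Agent.ND.NY.E

open Pool.Agent.helper58.DC Pool.Agent.DI Pool.Agent.GR Pool.Agent.OB Pool.Agent.DR Pool.Agent.FI Pool.Agent.FI3 Pool.Agent.FI4 Pool.Agent.FI4I Pool.Agent.LE Pool.Agent.L5 Pool.Agent.NAB Pool.Agent.NE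
open Pool.Agent.ZB (Pm Om KZ EQ BQ lQ MZc BDK)

/-- The condition on the parameters: the gap `w` is large and the numbers of irreducible Brauer characters agree (THEOREM ZB, ZMN), for all finite groups. -/
def EBc (p : ℕ) (m : Pm) (M : Ideal (integralClosure ℤ ℂ)) : Prop :=
  m.k = 1 ∧ m.a + 4 ≤ m.w ∧ ∀ (H : Type) [Group H] [Finite H], MZc p m M H

section

variable {G : Type} [Group G]

/-- `GS` relative to the subgroup `N`: the characters `ψ` of `L` with `b(ψ)^N = B` and a unit class `z x`, `Zg z = Z`. -/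
def GN (p e : ℕ) (m : Pm) (M : Ideal (integralClosure ℤ ℂ)) (N : Subgroup G) (χ : G → ℂ) (L Z : Subgroup G) : Set (G → ℂ) :=
  {ψ | ψ ∈ IrrOn L ∧ SB M N ψ χ ∧ ∃ z x : G, Ucl p e m M L ψ z x ∧ Zg p e m.a z = Z}

/-- The standing hypothesis for `N`. -/
structure ZN (p e : ℕ) (m : Pm) (t : ℕ) (M : Ideal (integralClosure ℤ ℂ)) (N : Subgroup G) (χ : G → ℂ) (Z : Subgroup G) (z x : G) : Prop where
  em : 2 * m.a + 5 ≤ e
  eb : EBc p m M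
  tx : Tx p e t G
  ch : χ ∈ IrrOn N
  uc : Ucl p e m M N χ z x
  zz : Zg p e m.a z = Z

/-- The row of `ψ` belongs to the orbit of `θ₀`, with the sign `ε`. -/
def Rw (p e : ℕ) (m : Pm) (t : ℕ) (M : Ideal (integralClosure ℤ ℂ)) (N : Subgroup G) (χ : G → ℂ) (Z : Subgroup G) (ψ θ₀ : G → ℂ) (ε : ℂ) : Prop :=
  ∀ θ ∈ GN p e m M N χ (N ⊓ cz Z) Z, ∀ ν : Z →* ℂˣ,
    mt (N ⊓ cz Z) ψ θ - mt (N ⊓ cz Z) ψ (st Z t ν θ) = ε * (iH N Z θ₀ θ - iH N Z θ₀ (st Z t ν θ))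

/-- The characters of `L` whose row belongs to the orbit of `θ₀`. -/
def FF (p e : ℕ) (m : Pm) (t : ℕ) (M : Ideal (integralClosure ℤ ℂ)) (N : Subgroup G) (χ : G → ℂ) (Z L : Subgroup G) (θ₀ : G → ℂ) : Set (G → ℂ) :=
  {ψ | ψ ∈ GN p e m M N χ L Z ∧ ∃ ε : ℂ, (ε = 1 ∨ ε = -1) ∧ Rw p e m t M N χ Z ψ θ₀ ε}

/-- THE STRUCTURE THEOREM for `(N, χ)`, `Z`, `z`. -/
structure STR (p e : ℕ) (m : Pm) (t : ℕ) (M : Ideal (integralClosure ℤ ℂ)) (N : Subgroup G) (χ : G → ℂ) (Z : Subgroup G) (z : G) : Prop where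
  ex : ∀ L, L2 p e N z L → ∀ ψ ∈ GN p e m M N χ L Z, ∃ θ₀ ∈ GN p e m M N χ (N ⊓ cz Z) Z, ψ ∈ FF p e m t M N χ Z L θ₀
  ct : ∀ L, L2 p e N z L → ∀ θ₀ ∈ GN p e m M N χ (N ⊓ cz Z) Z,
    Nat.card (N ⊓ cz Z : Subgroup G) * (FF p e m t M N χ Z L θ₀).ncard = Nat.card {h : G // h ∈ N ⊓ nz Z ∧ cjF h θ₀ = θ₀}
  df : ∀ θ₀ ∈ GN p e m M N χ (N ⊓ cz Z) Z, ∀ ψ ∈ FF p e m t M N χ Z N θ₀, ∀ ψ₁ ∈ FF p e m t M N χ Z (N ⊓ nz (Eg p e z)) θ₀, ∀ d : ℤ,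
    (Defect p N ψ d ↔ Defect p (N ⊓ nz (Eg p e z)) ψ₁ d)
  ou : ∀ L, N ⊓ cz Z ≤ L → L ≤ N → ∀ ψ ∈ IrrOn L, ψ ∉ GN p e m M N χ L Z → ∀ θ ∈ GN p e m M N χ (N ⊓ cz Z) Z, ∀ ν : Z →* ℂˣ,
    mt (N ⊓ cz Z) ψ θ = mt (N ⊓ cz Z) ψ (st Z t ν θ)
  sm : ∀ θ ∈ GN p e m M N χ (N ⊓ cz Z) Z, ∀ ν : Z →* ℂˣ, st Z t ν θ ∈ GN p e m M N χ (N ⊓ cz Z) Z ∧ SB M (N ⊓ cz Z) (st Z t ν θ) θ
  sz : ∀ θ ∈ GN p e m M N χ (N ⊓ cz Z) Z, Finite {θ' : G → ℂ // orb Z t θ θ'} ∧ p ^ 3 ≤ Nat.card {θ' : G → ℂ // orb Z t θ θ'}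
  fx : ∀ θ ∈ GN p e m M N χ (N ⊓ cz Z) Z, ∀ n ∈ N ⊓ nz Z, SB M (N ⊓ cz Z) (cjF n θ) θ → ∀ k : ℕ, n ^ p ^ k ∈ cz Z → n ∈ cz Z

/-- The standing hypothesis with an element `w` which stabilises the block. -/
structure HW (p e : ℕ) (m : Pm) (t : ℕ) (M : Ideal (integralClosure ℤ ℂ)) (N : Subgroup G) (χ : G → ℂ) (Z : Subgroup G) (z x w : G) : Prop where
  zn : ZN p e m t M N χ Z z x
  ww : Pool.Agent.NE.WW p N Z w
  bs : SB M N (cjF w χ) χ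

end

end Pool.Agent.ND.NY.E
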