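import Mathlib
import Pool.Agent.helper70.NZ.Defs

/-!
# MP_baa4d7_al, THEOREM NZ, part A: the structure theorem `STR` for the class of THEOREM ZD

PORT of `helper37/NE/SpecA.lean` (THEOREM NE). The pure rows (YKC YCL YLN YGW YGR YRI YPT YTG) are those of `Pool.Agent.NE`.

RULES FOR ROWS. File `Pool/Agent/<seat>/NZ/XXX.lean` with

  import Pool.Agent.helper70.NZ.SpecA   (or SpecB, SpecC)
  set_option autoImplicit false
  namespace Pool.Agent.ND.NY.E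
  open Pool.Agent.helper58.DC Pool.Agent.DI Pool.Agent.GR Pool.Agent.OB Pool.Agent.DR Pool.Agent.FI Pool.Agent.FI3 Pool.Agent.FI4 Pool.Agent.FI4I Pool.Agent.LE Pool.Agent.L5 Pool.Agent.NAB Pool.Agent.NE
  open Pool.Agent.ZB (Pm Om KZ EQ BQ lQ MZc BDK)
  theorem XXX (hYYY : YYY_stmt) ... : XXX_stmt := ...
  end Pool.Agent.ND.NY.E

Inside of this namespace `Ucl`, `GS`, `ZD`, NUB NUD NUH NUE NUF NLQ ZNU GBC .. are those of ZD (`Pool.Agent.ND.NY`), the rows `TEX ZGP ZLM GOB ..` those of ND; rows of ZB with full name `Pool.Agent.ZB.ZE1_stmt`, the same for rows of NAB and NE which are restated (`Pool.Agent.NAB.NUH_stmt`, `Pool.Agent.NE.YUL_stmt`). A script port of a file of `NE` is made by `/team-store/nz_port.py`.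
All rows of all earlier specs may be added as further hypotheses. No sorry, no double quotes, no `convert`, no `congr!`.
-/

set_option autoImplicit false

namespace Pool.Agent.ND.NY.E

open Pool.Agent.helper58.DC Pool.Agent.DI Pool.Agent.GR Pool.Agent.OB Pool.Agent.DR Pool.Agent.FI Pool.Agent.FI3 Pool.Agent.FI4 Pool.Agent.FI4I Pool.Agent.LE Pool.Agent.L5 Pool.Agent.NAB Pool.Agent.NE
open Pool.Agent.ZB (Pm Om KZ EQ BQ lQ MZc BDK)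

/-- **YKT** (short; pure). The class `KY` and injective homomorphisms. Proof: `Z ↦ Z.map i` is a bijection from the subgroups of `Q` onto the subgroups of `Q.map i` which preserves the cardinality, the centrality, `Om p j (Z.map i)` is the image of `Om p j Z` (`Set.ncard_image_of_injective`), orders. (2) `Q = (Q.subgroupOf N).map N.subtype` (`Subgroup.map_subgroupOf_eq_of_le`), (1) for `i = N.subtype`. -/
def YKT_stmt : Prop :=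
  ∀ (p e : ℕ) (κ : Pm),
    (∀ (G G' : Type) [Group G] [Finite G] [Group G'] [Finite G'] (i : G →* G'), Function.Injective i → ∀ Q : Subgroup G, (KY p e κ (Q.map i) ↔ KY p e κ Q)) ∧
    ∀ (G : Type) [Group G] [Finite G] (N : Subgroup G), ∀ Q ≤ N, (KY p e κ (Q.subgroupOf N) ↔ KY p e κ Q)

/-- **NTK** (short; from NAB.NTK, ZB.ZTK, YKT). Transfer of unit classes to the type `N`. Proof: all fields except `df` by NAB.NTK (with `m'` large: TRICK of the docstring of ZD.NUB). `df`: ZTK (1), YKT (2); every subgroup `D'` of the type `N` is `D.subgroupOf N`, `D = D'.map N.subtype ≤ N`; if `DefL p M H η D y` then `D ≤ H ≤ N`, `y ∈ H ≤ N`. -/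
def NTK_stmt : Prop :=
  ∀ (p e : ℕ) (m : Pm) (M : Ideal (integralClosure ℤ ℂ)), Setup p M → ∀ (G : Type) [Group G] [Finite G] (N H : Subgroup G), H ≤ N →
    ∀ η : G → ℂ, (∀ x, x ∉ N → η x = 0) → ∀ z x : N, Ucl p e m M (H.subgroupOf N) (rN N η) z x ↔ Ucl p e m M H η (z : G) (x : G)

/-- **YGA** (PORT by script of `NE.YGA`; proof: see the docstring in `helper37/NE`). -/
def YGA_stmt : Prop :=
  ∀ (p e : ℕ) (m : Pm) (t : ℕ) (M : Ideal (integralClosure ℤ ℂ)), Setup p M → ∀ (G : Type) [Group G] [Finite G] (χ : G → ℂ) (Z : Subgroup G) (z x : G),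
    ZN p e m t M (⊤ : Subgroup G) χ Z z x → ZD p e m t M χ Z z x ∧
    (∀ L : Subgroup G, GN p e m M (⊤ : Subgroup G) χ L Z = GS p e m M χ L Z) ∧
    (⊤ ⊓ cz Z : Subgroup G) = cz Z ∧ (⊤ ⊓ nz Z : Subgroup G) = nz Z ∧ (⊤ ⊓ nz (Eg p e z) : Subgroup G) = nz (Eg p e z) ∧
    GN p e m M (⊤ : Subgroup G) χ (⊤ : Subgroup G) Z = Bl M (⊤ : Subgroup G) χ

/-- **YUE** (short to medium; PORT of `NE.YUE`, `helper16/NE/YUE.lean`; from GBC, YE1, ZB.ZXU, ZB.ZHE, ZB.ZQD, ZB.ZE1, ZB.ZE2, ZB.ZQU, NDG, NUF, NUD, NUB, ZNU, ZGP, NEG, B2; the same argument as in the docstring of ZD.GKD, `helper41/ZD/GKD.lean`). A COMMON unit class. Proof: NUD: `(D, y₀)` a defect group of `χ` in `⊤`, `z₁ ∈ D` central, `KY D`; `E = Eg z₁ = EQ D` (YE1 (4)), `KZ D` (YE1 (1)). ZXU (`L = ⊤`): `η₀ ∈ BQ` with `(Q, x)`, `KZ Q`, `EQ Q = E`; ZHE, ZQD: `cjS l Q = D`, so `KY Q` (YE1 (3)). YE1 (5):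 `z' ∈ Q` central, of order `p ^ e`, `Eg z' = E` (YE1 (4)); NDG: `Ucl N₁ η₀ z' x`; NUF: `Ucl ⊤ χ z' x` (`df`: the one of `χ`). From here as in `NE.YUE`. -/
def YUE_stmt : Prop :=
  ∀ (p e : ℕ) (m : Pm) (t : ℕ) (M : Ideal (integralClosure ℤ ℂ)), Setup p M → ∀ (G : Type) [Group G] [Finite G] (χ : G → ℂ) (Z : Subgroup G) (z₁ x₁ : G),
    ZD p e m t M χ Z z₁ x₁ → ∃ z x : G, ZD p e m t M χ Z z x ∧ Eg p e z = Eg p e z₁ ∧
      (∀ ψ ∈ GS p e m M χ (⊤ : Subgroup G) Z, Ucl p e m M (⊤ : Subgroup G) ψ z x) ∧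
      (∀ ψ ∈ GS p e m M χ (nz (Eg p e z₁)) Z, Ucl p e m M (nz (Eg p e z₁)) ψ z x) ∧
      GS p e m M χ (⊤ : Subgroup G) Z = Bl M (⊤ : Subgroup G) χ ∧
      GS p e m M χ (nz (Eg p e z₁)) Z = BQ p m M (⊤ : Subgroup G) (nz (Eg p e z₁)) (Eg p e z₁) χ ∧
      Subgroup.centralizer ({z * x} : Set G) ≤ cz Z ∧ cz Z ≤ nz Z ∧ nz Z ≤ nz (Eg p e z₁)

open Classical in
/-- **YGK** (medium; PORT of `NE.YGK`, `helper27/NE/YGK.lean`; the count `|GS ⊤| = |GS (nz E)|` by ZD.GKE (`helper39/ZD/GKE.lean`) for the defect group `(D, y)` of `χ`, `z ∈ D` central, `KY D` (NUD), `KZ D`, `EQ D = Eg z` (YE1), `MZc` for the subgroups from `EBc`.) -/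
def YGK_stmt : Prop :=
  ∀ (p e : ℕ) (m : Pm) (t : ℕ) (M : Ideal (integralClosure ℤ ℂ)), Setup p M → ∀ (G : Type) [Group G] [Finite G] (χ : G → ℂ) (Z : Subgroup G) (z x : G),
    ZD p e m t M χ Z z x → EBc p m M → ∀ L : Subgroup G, (L = ⊤ ∨ L = nz (Eg p e z)) →
    (∀ ψ ∈ GS p e m M χ L Z, ∃ θ₀ ∈ GS p e m M χ (cz Z) Z, ∃ ε : ℂ, (ε = 1 ∨ ε = -1) ∧ ∀ θ ∈ GS p e m M χ (cz Z) Z, ∀ ν : Z →* ℂˣ,
      mt (cz Z) ψ θ - mt (cz Z) ψ (st Z t ν θ) = ε * (iH ⊤ Z θ₀ θ - iH ⊤ Z θ₀ (st Z t ν θ))) ∧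
    ∀ θ₀ ∈ GS p e m M χ (cz Z) Z, Nat.card (cz Z : Subgroup G) *
      {ψ : G → ℂ | ψ ∈ GS p e m M χ L Z ∧ ∃ ε : ℂ, (ε = 1 ∨ ε = -1) ∧ ∀ θ ∈ GS p e m M χ (cz Z) Z, ∀ ν : Z →* ℂˣ,
        mt (cz Z) ψ θ - mt (cz Z) ψ (st Z t ν θ) = ε * (iH ⊤ Z θ₀ θ - iH ⊤ Z θ₀ (st Z t ν θ))}.ncard = Nat.card {h : G // h ∈ nz Z ∧ cjF h θ₀ = θ₀}

open Classical in
/-- **YGD** (PORT by script of `NE.YGD`; proof: see the docstring in `helper37/NE`). -/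
def YGD_stmt : Prop :=
  ∀ (p e : ℕ) (m : Pm) (t : ℕ) (M : Ideal (integralClosure ℤ ℂ)), Setup p M → ∀ (G : Type) [Group G] [Finite G] (χ : G → ℂ) (Z : Subgroup G) (z x : G),
    ZD p e m t M χ Z z x → ∀ ψ ∈ GS p e m M χ (⊤ : Subgroup G) Z, ∀ ψ₁ ∈ GS p e m M χ (nz (Eg p e z)) Z, ∀ (f : (G → ℂ) → ℂ) (ε ε₁ : ℂ),
    (ε = 1 ∨ ε = -1) → (ε₁ = 1 ∨ ε₁ = -1) →
    (∀ θ ∈ GS p e m M χ (cz Z) Z, ∀ ν : Z →* ℂˣ, mt (cz Z) ψ θ - mt (cz Z) ψ (st Z t ν θ) = ε * (f θ - f (st Z t ν θ))) →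
    (∀ θ ∈ GS p e m M χ (cz Z) Z, ∀ ν : Z →* ℂˣ, mt (cz Z) ψ₁ θ - mt (cz Z) ψ₁ (st Z t ν θ) = ε₁ * (f θ - f (st Z t ν θ))) →
    ∀ d : ℤ, (Defect p (⊤ : Subgroup G) ψ d ↔ Defect p (nz (Eg p e z)) ψ₁ d)

/-- **YST** (PORT by script of `NE.YST`; proof: see the docstring in `helper37/NE`). -/
def YST_stmt : Prop :=
  ∀ (p e : ℕ) (m : Pm) (t : ℕ) (M : Ideal (integralClosure ℤ ℂ)), Setup p M → ∀ (G : Type) [Group G] [Finite G] (χ : G → ℂ) (Z : Subgroup G) (z x : G),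
    ZN p e m t M (⊤ : Subgroup G) χ Z z x → STR p e m t M (⊤ : Subgroup G) χ Z z

/-- **YTR** (PORT of `NE.YTR`, `helper4/NE/YTR.lean`, with NTK of this file). -/
def YTR_stmt : Prop :=
  ∀ (p e : ℕ) (m : Pm) (t : ℕ) (M : Ideal (integralClosure ℤ ℂ)), Setup p M → ∀ (G : Type) [Group G] [Finite G] (N Z : Subgroup G) (hZN : Z ≤ N),
    (Tx p e t G → Tx p e t N) ∧
    (∀ z : N, Zg p e m.a z = (Zg p e m.a (z : G)).subgroupOf N) ∧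
    (∀ (ν : Z →* ℂˣ) (θ : G → ℂ), st (Z.subgroupOf N) t (ν.comp (Subgroup.subgroupOfEquivOfLe hZN).toMonoidHom) (rN N θ) = rN N (st Z t ν θ)) ∧
    (cz (Z.subgroupOf N) = (N ⊓ cz Z).subgroupOf N ∧ nz (Z.subgroupOf N) = (N ⊓ nz Z).subgroupOf N) ∧
    (∀ χ : G → ℂ, (∀ y, y ∉ N → χ y = 0) → ∀ L ≤ N, ∀ ψ : G → ℂ, (∀ y, y ∉ N → ψ y = 0) →
      (ψ ∈ GN p e m M N χ L Z ↔ rN N ψ ∈ GN p e m M (⊤ : Subgroup N) (rN N χ) (L.subgroupOf N) (Z.subgroupOf N))) ∧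
    (∀ L ≤ N, ∀ φ ψ : G → ℂ, mt (L.subgroupOf N) (rN N φ) (rN N ψ) = mt L φ ψ) ∧
    (∀ (n : N) (ψ : G → ℂ), cjF n (rN N ψ) = rN N (cjF (n : G) ψ)) ∧
    (∀ L ≤ N, ∀ (ψ : G → ℂ) (d : ℤ), (Defect p (L.subgroupOf N) (rN N ψ) d ↔ Defect p L ψ d)) ∧
    (∀ L ≤ N, ∀ ψ' ∈ IrrOn (L.subgroupOf N), ∃ ψ ∈ IrrOn L, rN N ψ = ψ')

/-- **YSN** (PORT by script of `NE.YSN`; proof: see the docstring in `helper37/NE`). -/
def YSN_stmt : Prop :=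
  ∀ (p e : ℕ) (m : Pm) (t : ℕ) (M : Ideal (integralClosure ℤ ℂ)), Setup p M → ∀ (G : Type) [Group G] [Finite G] (N : Subgroup G) (χ : G → ℂ) (Z : Subgroup G) (z x : G),
    ZN p e m t M N χ Z z x → STR p e m t M N χ Z z

end Pool.Agent.ND.NY.E
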