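import Mathlib
import Pool.Agent.helper70.NZ.SpecA
import Pool.Agent.helper37.NE.SpecB

/-!
# MP_baa4d7_al, THEOREM NZ, part B: extension by a `p`-regular element `w`; the stabilisers of the characters

PORT of `helper37/NE/SpecB.lean`. The rows YIX YCV YDF YRS are those of `Pool.Agent.NE`. Rules and notation: `SpecA.lean`.
-/

set_option autoImplicit false

namespace Pool.Agent.ND.NY.E

open Pool.Agent.helper58.DC Pool.Agent.DI Pool.Agent.GR Pool.Agent.OB Pool.Agent.DR Pool.Agent.FI Pool.Agent.FI3 Pool.Agent.FI4 Pool.Agent.FI4I Pool.Agent.LE Pool.Agent.L5 Pool.Agent.NAB Pool.Agent.NE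
open Pool.Agent.ZB (Pm Om KZ EQ BQ lQ MZc BDK)

/-- **YUL** (short to medium; from NE.YUL, NE.YDF, NE.YIX, DUN, DEX, DGL, SYL). A unit class goes up from `K` to `K' = K ⊔ ⟨s⟩`. Proof: all fields except `df` by NE.YUL (YIX; with `m'` large: TRICK of the docstring of ZD.NUB). `df`: `(D, y)` a defect group of `φ` in `K` with `KY D`. CLAIM: `DefL p M K' φ' D y`. `reg`, `mem`, `pg`: clear. NE.YUL for `e = 0`, `z = 1`, `x = y` and `m'` with `p ^ m' = |D| = pp p (Cz K y)`: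
`¬ InM (cc φ' (cls K' y))` and `pp p (Cz K' y) ≤ |D|`; `|D| ≤ pp p (Cz K' y)` by SYL (`D ≤ Cz K y ≤ Cz K' y`): `card`, `ne`. `min`: DEX: `(D', y')` for `K'`, `φ'`; DGL: `η₀ ∈ IrrOn (K ⊓ cz D)`, `SB M K η₀ φ`; NE.YDF (`R = D`): `l⁻¹ D l ≤ D'`, so `|D| ≤ |D'|`; `DefL.min` for `D'`. -/
def YUL_stmt : Prop :=
  ∀ (p e : ℕ) (m : Pm) (M : Ideal (integralClosure ℤ ℂ)), Setup p M → ∀ (G : Type) [Group G] [Finite G] (K : Subgroup G) (s : G), s ∈ nz K →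
    (∀ y ∈ K ⊔ Subgroup.zpowers s, PEl p y → y ∈ K) → ∀ φ' ∈ IrrOn (K ⊔ Subgroup.zpowers s), ∀ φ ∈ IrrOn K, mt K φ' φ ≠ 0 →
    (∀ g ∈ K ⊔ Subgroup.zpowers s, SB M K (cjF g φ) φ) → ∀ z x : G, Ucl p e m M K φ z x → Ucl p e m M (K ⊔ Subgroup.zpowers s) φ' z x

/-- **YBE** (short to medium; PORT of `NE.YBE`, `helper30/NE/YBE.lean`, with the changes described in the docstring of YUE). -/
def YBE_stmt : Prop :=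
  ∀ (p e : ℕ) (m : Pm) (t : ℕ) (M : Ideal (integralClosure ℤ ℂ)), Setup p M → ∀ (G : Type) [Group G] [Finite G] (N : Subgroup G) (χ : G → ℂ) (Z : Subgroup G) (z x : G),
    ZN p e m t M N χ Z z x →
    GN p e m M N χ N Z = Bl M N χ ∧
    GN p e m M N χ (N ⊓ nz (Eg p e z)) Z = BQ p m M N (N ⊓ nz (Eg p e z)) (Eg p e z) χ ∧
    (∀ η ∈ GN p e m M N χ (N ⊓ nz (Eg p e z)) Z, ∀ η' ∈ GN p e m M N χ (N ⊓ nz (Eg p e z)) Z, SB M (N ⊓ nz (Eg p e z)) η η') ∧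
    Z ≤ N ∧ N ⊓ cz Z ≤ N ⊓ nz Z ∧ N ⊓ nz Z ≤ N ⊓ nz (Eg p e z) ∧ nz Z ≤ nz (Eg p e z) ∧ IsPGroup p Z

/-- **YSW** (PORT by script of `NE.YSW`; proof: see the docstring in `helper37/NE`). -/
def YSW_stmt : Prop :=
  ∀ (p e : ℕ) (m : Pm) (t : ℕ) (M : Ideal (integralClosure ℤ ℂ)), Setup p M → ∀ (G : Type) [Group G] [Finite G] (N : Subgroup G) (χ : G → ℂ) (Z : Subgroup G) (z x : G),
    ZN p e m t M N χ Z z x → ∀ w : G, w ∈ nz N → w ∈ nz Z → SB M N (cjF w χ) χ →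
    (∀ L, L2 p e N z L → w ∈ nz L ∧ N ⊓ nz Z ≤ L ∧ L ≤ N) ∧
    (∀ L, w ∈ nz L → ∀ ψ ∈ GN p e m M N χ L Z, cjF w ψ ∈ GN p e m M N χ L Z) ∧
    (∀ L, w ∈ nz L → N ⊓ cz Z ≤ L → ∀ ψ ∈ GN p e m M N χ L Z, ∀ (θ₀ : G → ℂ) (ε : ℂ), Rw p e m t M N χ Z ψ θ₀ ε → Rw p e m t M N χ Z (cjF w ψ) (cjF w θ₀) ε) ∧
    (∀ h ∈ N ⊓ nz Z, ∀ θ₀ : G → ℂ, iH N Z (cjF h θ₀) = iH N Z θ₀ ∧ ∀ (ψ : G → ℂ) (ε : ℂ), Rw p e m t M N χ Z ψ (cjF h θ₀) ε ↔ Rw p e m t M N χ Z ψ θ₀ ε) ∧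
    (∀ g ∈ Nw N w, SB M N (cjF g χ) χ) ∧ w ∈ nz (N ⊓ cz Z) ∧ w ∈ nz (N ⊓ nz Z) ∧ w ∈ nz (Eg p e z)

/-- **YUX** (medium; PORT of `NE.YUX`, `helper95/NE/YUX.lean`; YUL of this file for `K = N`, `s = w`; the locality hypothesis of NUH for `K = C' = N' ⊓ cz Z` in `L = N'`: CNTL (`L := C'`, `R := Z`, `C' ⊓ cz Z = C'`): `l Z l⁻¹ ≤ Q`, `l ∈ cz Z`, so `Z ≤ Q` and `cz Q ≤ cz Z`). -/
def YUX_stmt : Prop :=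
  ∀ (p e : ℕ) (m : Pm) (t : ℕ) (M : Ideal (integralClosure ℤ ℂ)), Setup p M → ∀ (G : Type) [Group G] [Finite G] (N : Subgroup G) (χ : G → ℂ) (Z : Subgroup G) (z x w : G),
    HW p e m t M N χ Z z x w → ∀ θ ∈ GN p e m M N χ (N ⊓ cz Z) Z, ∀ θ' ∈ IrrOn (Nw N w ⊓ cz Z), mt (N ⊓ cz Z) θ' θ ≠ 0 →
    ∃ χ'' : G → ℂ, ZN p e m t M (Nw N w) χ'' Z z x ∧ θ' ∈ GN p e m M (Nw N w) χ'' (Nw N w ⊓ cz Z) Z

/-- **YUP** (medium; PORT of `NE.YUP`, `helper8/NE/YUP.lean`; from YUL, NE.YCV, ZB.ZUX, NE.YGW, YSW, YBE, NUB, CJG, ZGP, NEG). Case `L = N`: as in NE. Case `L = N ⊓ nz E`: `L' = N' ⊓ nz E`, `Ucl L' ψ' z₁ x₁` by YUL for `K = L` (`Zg z₁ = Z`); ZUX (`L := N'`, `E = Eg z ≤ Z ≤ N`, a `p`-group): `χ' ∈ IrrOn N'`, `SB M N' ψ' χ'`. NE.YCV (`C' := L'`, `L' ⊓ N = L`): `χ₁ ∈ IrrOn N`, `mt N χ' χ₁ ≠ 0`,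 `SB M N χ₁ χ`, so `Ucl N χ₁ z x` (NUB (1)) and YUL for `K = N`: `Ucl N' χ' z x`. So `z' = z`, `x' = x` (`ZN .. N' χ' Z z x`, `L2 p e N' z L'`). -/
def YUP_stmt : Prop :=
  ∀ (p e : ℕ) (m : Pm) (t : ℕ) (M : Ideal (integralClosure ℤ ℂ)), Setup p M → ∀ (G : Type) [Group G] [Finite G] (N : Subgroup G) (χ : G → ℂ) (Z : Subgroup G) (z x w : G),
    HW p e m t M N χ Z z x w → ∀ L, L2 p e N z L → ∀ ψ ∈ GN p e m M N χ L Z, ∀ ψ' ∈ IrrOn (Nw L w), mt L ψ' ψ ≠ 0 →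
    ∃ (χ' : G → ℂ) (z' x' : G), ZN p e m t M (Nw N w) χ' Z z' x' ∧ L2 p e (Nw N w) z' (Nw L w) ∧ ψ' ∈ GN p e m M (Nw N w) χ' (Nw L w) Z

/-- **YFY** (PORT by script of `NE.YFY`; proof: see the docstring in `helper37/NE`). -/
def YFY_stmt : Prop :=
  ∀ (p e : ℕ) (m : Pm) (t : ℕ) (M : Ideal (integralClosure ℤ ℂ)), Setup p M → ∀ (G : Type) [Group G] [Finite G] (N : Subgroup G) (χ : G → ℂ) (Z : Subgroup G) (z x : G),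
    ZN p e m t M N χ Z z x → STR p e m t M N χ Z z → ∀ w : G, Pool.Agent.NE.WW p N Z w → ∀ θ ∈ GN p e m M N χ (N ⊓ cz Z) Z,
    {θ₁ : G → ℂ | orb Z t θ θ₁ ∧ ∃ a ∈ Nw N w ⊓ nz Z, θ₁ = cjF a θ}.Finite ∧
    {θ₁ : G → ℂ | orb Z t θ θ₁ ∧ ∃ a ∈ Nw N w ⊓ nz Z, θ₁ = cjF a θ}.ncard ≤ p - 1

/-- **YAV** (PORT by script of `NE.YAV`; proof: see the docstring in `helper37/NE`). -/
def YAV_stmt : Prop :=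
  ∀ (p e : ℕ) (m : Pm) (t : ℕ) (M : Ideal (integralClosure ℤ ℂ)), Setup p M → ∀ (G : Type) [Group G] [Finite G] (N : Subgroup G) (χ : G → ℂ) (Z : Subgroup G) (z x : G),
    ZN p e m t M N χ Z z x → STR p e m t M N χ Z z → ∀ w : G, Pool.Agent.NE.WW p N Z w → ∀ θ₀ ∈ GN p e m M N χ (N ⊓ cz Z) Z, ∀ A B : Set (G → ℂ),
    (∀ θ₁ ∈ A, ∀ θ₂ ∈ A, orb Z t θ₀ θ₁ → orb Z t θ₀ θ₂ → ∃ a ∈ Nw N w ⊓ nz Z, θ₂ = cjF a θ₁) →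
    (∀ θ₁ ∈ B, ∀ θ₂ ∈ B, orb Z t θ₀ θ₁ → orb Z t θ₀ θ₂ → ∃ a ∈ Nw N w ⊓ nz Z, θ₂ = cjF a θ₁) →
    ∃ ν : Z →* ℂˣ, st Z t ν θ₀ ∉ A ∧ st Z t ν θ₀ ∉ B

/-- **YHC** (PORT by script of `NE.YHC`; proof: see the docstring in `helper37/NE`). -/
def YHC_stmt : Prop :=
  ∀ (p e : ℕ) (m : Pm) (t : ℕ) (M : Ideal (integralClosure ℤ ℂ)), Setup p M → ∀ (G : Type) [Group G] [Finite G] (N : Subgroup G) (χ : G → ℂ) (Z : Subgroup G) (z x : G),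
    ZN p e m t M N χ Z z x → STR p e m t M N χ Z z → ∀ L, L2 p e N z L → ∀ θ₀ ∈ GN p e m M N χ (N ⊓ cz Z) Z,
    (FF p e m t M N χ Z L θ₀).Finite ∧ (FF p e m t M N χ Z L θ₀).ncard ≠ 0 ∧ (FF p e m t M N χ Z L θ₀).ncard ≤ p - 1

/-- **YFF** (PORT by script of `NE.YFF`; proof: see the docstring in `helper37/NE`). -/
def YFF_stmt : Prop :=
  ∀ (p e : ℕ) (m : Pm) (t : ℕ) (M : Ideal (integralClosure ℤ ℂ)), Setup p M → ∀ (G : Type) [Group G] [Finite G] (N : Subgroup G) (χ : G → ℂ) (Z : Subgroup G) (z x : G),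
    ZN p e m t M N χ Z z x → STR p e m t M N χ Z z → ∀ L : Subgroup G, ∀ θ₀ ∈ GN p e m M N χ (N ⊓ cz Z) Z, ∀ θ₁ ∈ GN p e m M N χ (N ⊓ cz Z) Z,
    ∀ ψ ∈ FF p e m t M N χ Z L θ₀, ψ ∈ FF p e m t M N χ Z L θ₁ → ∃ h ∈ N ⊓ nz Z, cjF h θ₁ = θ₀

open Classical in
/-- **YRW** (PORT by script of `NE.YRW`; proof: see the docstring in `helper37/NE`). -/
def YRW_stmt : Prop :=
  ∀ (p e : ℕ) (m : Pm) (t : ℕ) (M : Ideal (integralClosure ℤ ℂ)), Setup p M → ∀ (G : Type) [Group G] [Finite G] (N : Subgroup G) (χ : G → ℂ) (Z : Subgroup G) (z x w : G),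
    HW p e m t M N χ Z z x w → ∀ L, L2 p e N z L → ∀ ψ ∈ GN p e m M N χ L Z, ∀ ψ' ∈ IrrOn (Nw L w), mt L ψ' ψ ≠ 0 →
    ∃ (θ₀' : G → ℂ) (ε' : ℂ), θ₀' ∈ IrrOn (Nw N w ⊓ cz Z) ∧ (ε' = 1 ∨ ε' = -1) ∧
      ∀ θ ∈ GN p e m M N χ (N ⊓ cz Z) Z, ∀ θ' ∈ IrrOn (Nw N w ⊓ cz Z), mt (N ⊓ cz Z) θ' θ ≠ 0 → ∀ ν : Z →* ℂˣ,
        st Z t ν θ' ∈ IrrOn (Nw N w ⊓ cz Z) ∧
        mt (Nw N w ⊓ cz Z) ψ' θ' - mt (Nw N w ⊓ cz Z) ψ' (st Z t ν θ') =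
          ε' * ((if ∃ a ∈ Nw N w ⊓ nz Z, cjF a θ₀' = θ' then (1 : ℂ) else 0) - (if ∃ a ∈ Nw N w ⊓ nz Z, cjF a θ₀' = st Z t ν θ' then 1 else 0))

/-- **YEA** (PORT by script of `NE.YEA`; proof: see the docstring in `helper37/NE`). -/
def YEA_stmt : Prop :=
  ∀ (p e : ℕ) (m : Pm) (t : ℕ) (M : Ideal (integralClosure ℤ ℂ)), Setup p M → ∀ (G : Type) [Group G] [Finite G] (N : Subgroup G) (χ : G → ℂ) (Z : Subgroup G) (z x w : G),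
    HW p e m t M N χ Z z x w → STR p e m t M N χ Z z → ∀ L, L2 p e N z L → ∀ θ₀ ∈ GN p e m M N χ (N ⊓ cz Z) Z, (∃ h ∈ N ⊓ nz Z, cjF w θ₀ = cjF h θ₀) →
    ∀ ψ ∈ GN p e m M N χ L Z, ∀ ε : ℂ, Rw p e m t M N χ Z ψ θ₀ ε →
    ∃ (θ₀' : G → ℂ) (ε' : ℂ), θ₀' ∈ IrrOn (Nw N w ⊓ cz Z) ∧ (ε' = 1 ∨ ε' = -1) ∧ ∀ θ ∈ GN p e m M N χ (N ⊓ cz Z) Z, ∀ ν : Z →* ℂˣ,
      ({φ : G → ℂ | ∃ k : ℕ, φ = cjF (w ^ k) ψ}.ncard : ℂ) * ε * (iH N Z θ₀ θ - iH N Z θ₀ (st Z t ν θ)) =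
        ε' * ((rN' N (Nw N w) Z θ θ₀' : ℂ) - (rN' N (Nw N w) Z (st Z t ν θ) θ₀' : ℂ))

/-- **YEB** (PORT by script of `NE.YEB`; proof: see the docstring in `helper37/NE`). -/
def YEB_stmt : Prop :=
  ∀ (p e : ℕ) (m : Pm) (t : ℕ) (M : Ideal (integralClosure ℤ ℂ)), Setup p M → ∀ (G : Type) [Group G] [Finite G] (N : Subgroup G) (χ : G → ℂ) (Z : Subgroup G) (z x w : G),
    HW p e m t M N χ Z z x w → STR p e m t M N χ Z z → ∀ L, L2 p e N z L → ∀ θ₀ ∈ GN p e m M N χ (N ⊓ cz Z) Z, (∃ h ∈ N ⊓ nz Z, cjF w θ₀ = cjF h θ₀) →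
    ∀ ψ ∈ FF p e m t M N χ Z L θ₀, ∀ θ' ∈ IrrOn (Nw N w ⊓ cz Z), mt (N ⊓ cz Z) θ' θ₀ ≠ 0 →
    {φ : G → ℂ | ∃ k : ℕ, φ = cjF (w ^ k) ψ}.ncard = rN' N (Nw N w) Z θ₀ θ'

/-- **YPF** (PORT by script of `NE.YPF`; proof: see the docstring in `helper37/NE`). -/
def YPF_stmt : Prop :=
  ∀ (p e : ℕ) (m : Pm) (t : ℕ) (M : Ideal (integralClosure ℤ ℂ)), Setup p M → ∀ (G : Type) [Group G] [Finite G] (N : Subgroup G) (χ : G → ℂ) (Z : Subgroup G) (z x : G),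
    ZN p e m t M N χ Z z x → STR p e m t M N χ Z z → ∀ w : G, PEl p w → w ∈ nz N → w ∈ nz Z → SB M N (cjF w χ) χ → ∀ L, L2 p e N z L →
    ∀ θ₀ ∈ GN p e m M N χ (N ⊓ cz Z) Z, (∃ h ∈ N ⊓ nz Z, cjF w θ₀ = cjF h θ₀) → ∀ ψ ∈ FF p e m t M N χ Z L θ₀, cjF w ψ = ψ

/-- **YWF** (PORT by script of `NE.YWF`; proof: see the docstring in `helper37/NE`). -/
def YWF_stmt : Prop :=
  ∀ (p e : ℕ) (m : Pm) (t : ℕ) (M : Ideal (integralClosure ℤ ℂ)), Setup p M → ∀ (G : Type) [Group G] [Finite G] (N : Subgroup G) (χ : G → ℂ) (Z : Subgroup G) (z x : G),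
    ZN p e m t M N χ Z z x → ∀ w : G, w ∈ nz N → w ∈ nz Z → SB M N (cjF w χ) χ → ∀ θ₀ ∈ GN p e m M N χ (N ⊓ cz Z) Z,
    ∀ ψ ∈ FF p e m t M N χ Z N θ₀, ∀ ψ₁ ∈ FF p e m t M N χ Z (N ⊓ nz (Eg p e z)) θ₀, (cjF w ψ = ψ ↔ cjF w ψ₁ = ψ₁)

/-- **YNC** (medium; PORT by script of `NE.YNC`). -/
def YNC_stmt : Prop :=
  ∀ (p e : ℕ) (m : Pm) (M : Ideal (integralClosure ℤ ℂ)), Setup p M → EBc p m M → 2 * m.a + 5 ≤ e → ∀ (G : Type) [Group G] [Finite G] (N : Subgroup G),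
    ∀ χ ∈ IrrOn N, ∀ z x : G, Ucl p e m M N χ z x → ∀ Δ : Subgroup G, N ≤ Δ → Δ ≤ nz N → ∀ d : ℤ,
    {ψ : G → ℂ | ψ ∈ Bl M N χ ∧ Defect p N ψ d ∧ ∀ δ ∈ Δ, cjF δ ψ = ψ}.ncard =
      {η : G → ℂ | η ∈ BQ p m M N (N ⊓ nz (Eg p e z)) (Eg p e z) χ ∧ Defect p (N ⊓ nz (Eg p e z)) η d ∧
        (∀ δ ∈ Δ ⊓ nz (Eg p e z), cjF δ η = η) ∧ Δ ≤ N ⊔ (Δ ⊓ nz (Eg p e z))}.ncard

end Pool.Agent.ND.NY.E
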