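import Mathlib
import Pool.Agent.helper70.NZ.SpecB
import Pool.Agent.helper37.NE.SpecC

/-!
# MP_baa4d7_al, THEOREM NZ, part C: chains, the toggle, extensions, the final statement

PORT of `helper37/NE/SpecC.lean`. `hB` and the rows YCB, YR0 are those of `Pool.Agent.NE`. Rules and notation: `SpecA.lean`. The sums over chains are taken over the NORMAL chains (`NCh p G₀ ⊥ C`), whose normalisers are local (YTL).
-/

set_option autoImplicit false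

namespace Pool.Agent.ND.NY.E

open Pool.Agent.helper58.DC Pool.Agent.DI Pool.Agent.GR Pool.Agent.OB Pool.Agent.DR Pool.Agent.FI Pool.Agent.FI3 Pool.Agent.FI4 Pool.Agent.FI4I Pool.Agent.LE Pool.Agent.L5 Pool.Agent.NAB Pool.Agent.NE
open Pool.Agent.ZB (Pm Om KZ EQ BQ lQ MZc BDK)

section

variable {G : Type} [Group G]

open Classical in
/-- `|K ⊓ G₀|` times the number of the `K`-invariant characters of defect `d` of `K ⊓ G₀` in the blocks with a defect group `Q` in the class, `EQ Q = E'`, if `K ⊔ G₀ = ⊤`. -/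
noncomputable def hE (p : ℕ) (m : Pm) (M : Ideal (integralClosure ℤ ℂ)) (G₀ : Subgroup G) (χ₀ : G → ℂ) (d : ℤ) (E' K : Subgroup G) : ℤ :=
  if K ⊔ G₀ = ⊤ then (Nat.card (K ⊓ G₀ : Subgroup G) : ℤ) *
    ({η : G → ℂ | η ∈ BQ p m M G₀ (K ⊓ G₀) E' χ₀ ∧ Defect p (K ⊓ G₀) η d ∧ ∀ κ ∈ K, cjF κ η = η}.ncard : ℤ) else 0

end

/-- **YTD** (short to medium; PORT of `helper23/ZD/TDC.lean` with a weight which depends on `(E', η)`; from ZB.ZUH, ZB.ZE1, ZB.ZUB, ZB.ZE2, NUD, YE1, CJG, B2). Proof: NUD: `(D, y)`, `z ∈ D` central, `KY D`, so `KZ D` and `Eg z = EQ D` (YE1). If the term for `E'` is not `0` then `E' = cjS l (EQ D)`, `l ∈ L` (ZUH); `η ↦ cjF l η` is a bijection. -/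
def YTD_stmt : Prop :=
  ∀ (p e : ℕ) (m : Pm) (M : Ideal (integralClosure ℤ ℂ)), Setup p M → ∀ (G : Type) [Group G] [Finite G] (L : Subgroup G),
    ∀ ψ ∈ IrrOn L, ∀ z x : G, Ucl p e m M L ψ z x → ∀ W : Subgroup G → (G → ℂ) → ℂ, (∀ l ∈ L, ∀ E' η, W (cjS l E') (cjF l η) = W E' η) →
    ∑ᶠ E' : Subgroup G, (Nat.card (L ⊓ nz E' : Subgroup G) : ℂ) * ∑ᶠ η ∈ BQ p m M L (L ⊓ nz E') E' ψ, W E' η =
      (Nat.card L : ℂ) * ∑ᶠ η ∈ BQ p m M L (L ⊓ nz (Eg p e z)) (Eg p e z) ψ, W (Eg p e z) η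

/-- **YNL** (medium; PORT of `NE.YNL` and `helper29/ZD/TDL.lean`; from `Pool.Agent.NAB.XPB_stmt`, YNC, YTD, NUH, ZB.ZUX, ZB.ZE1, DEX, TRN, CJG, FEQ, B2). The local blocks. Proof: as in NE (see the docstring of NE.YNL): `N = Δ ⊓ G₀`; for `φ ∈ A` (`φ ∈ IrrOn N`, `SB M G₀ φ χ₀`) NUH (`L = G₀`, `K = N`, the locality hypothesis) gives a unit class `(z', x')` of `φ` in `N`; YTD, YNC. For `(E', η) ∈ B`, `η ∈ BQ` with `(Q, y)`: `E' = EQ Q ≤ Q ≤ N` is a `p`-group (ZE1), ZUX (`L := N`). -/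
def YNL_stmt : Prop :=
  ∀ (p e : ℕ) (m : Pm) (M : Ideal (integralClosure ℤ ℂ)), Setup p M → EBc p m M → 2 * m.a + 5 ≤ e → ∀ (G : Type) [Group G] [Finite G] (G₀ : Subgroup G),
    G₀.Normal → ∀ χ₀ ∈ IrrOn G₀, ∀ z x : G, Ucl p e m M G₀ χ₀ z x → ∀ (d : ℤ) (Δ : Subgroup G),
    (∀ φ ∈ IrrOn (Δ ⊓ G₀), ∀ (Q : Subgroup G) (y : G), DefL p M (Δ ⊓ G₀) φ Q y → G₀ ⊓ cz Q ≤ Δ) →
    (hB p M G₀ χ₀ d Δ : ℂ) = ∑ᶠ E' : Subgroup G, (hE p m M G₀ χ₀ d E' (Δ ⊓ nz E') : ℂ)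

/-- **YTL** (short; COPY of ZB.ZTL, grep `theorem ZTL`, with `G₀` in place of `⊤`; from CFA, NFV, CNTL, FMX-type facts). Normalisers of normal chains are local in `G₀`. Proof: let `P` be the largest term of `C`, `N = nrm C ⊓ G₀`. `P ≤ N` (`nm`, `P ≤ G₀`), `N ≤ nz P`, `P` is a `p`-group. CFA (1) for `K = N ⊓ cz P ≤ N ≤ nz K`: `ψ₀ ∈ IrrOn K`, `OverE K N φ ψ₀ n`; NFV: `SB M N φ ψ₀`, so CNTL (`L := N`, `R := P`):
`l ∈ N` with `l P l⁻¹ ≤ Q`, and `l P l⁻¹ = P`. So `cz Q ≤ cz P ≤ nz P'` for every term `P' ≤ P`. -/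
def YTL_stmt : Prop :=
  ∀ (p : ℕ) (M : Ideal (integralClosure ℤ ℂ)), Setup p M → ∀ (G : Type) [Group G] [Finite G] (G₀ : Subgroup G), G₀.Normal → ∀ C : Finset (Subgroup G),
    NCh p G₀ ⊥ C → ∀ φ ∈ IrrOn (nrm C ⊓ G₀), ∀ (Q : Subgroup G) (y : G), DefL p M (nrm C ⊓ G₀) φ Q y → G₀ ⊓ cz Q ≤ nrm C

/-- **YNF** (short to medium; from YNL, YTL, FNO, NE.YTG, ZB.ZE1, B2; MODEL `helper61/ZD/TDF.lean`). THE CHAIN SUM. Proof: FNO (`L = G₀`, `P = ⊥`, `N = ⊤`) for `g = hB`: the sum over the normal chains; `⊤ ⊓ nrm C = nrm C`. YNL for `Δ = nrm C` (local: YTL); exchange the sums over `C` and `E'`. Fix `E'`. If no `BQ p m M G₀ K E' χ₀`, `K ≤ G₀`, contains an element all terms are `0`. Otherwise `E' = EQ Q ≤ Q ≤ K ≤ G₀` is a `p`-group `≠ ⊥` (ZE1).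
FNO (`L = G₀`, `P = ⊥`, `N = nz E'`) for `g = hE .. E'`: the sum over the normal chains is the sum over all chains `PCh p G₀ ⊥ C` of `hE .. E' (nz E' ⊓ nrm C)`; the terms with `¬ E' ≤ nrm C` are `0` (`E' ≤ Q ≤ K ⊓ G₀`), the others sum to `0` by YTG (`R = ⊥`). -/
def YNF_stmt : Prop :=
  ∀ (p e : ℕ) (m : Pm) (M : Ideal (integralClosure ℤ ℂ)), Setup p M → EBc p m M → 2 * m.a + 5 ≤ e → ∀ (G : Type) [Group G] [Finite G] (G₀ : Subgroup G),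
    G₀.Normal → ∀ χ₀ ∈ IrrOn G₀, ∀ z x : G, Ucl p e m M G₀ χ₀ z x → ∀ d : ℤ, cSum p G₀ ⊥ ⊤ (hB p M G₀ χ₀ d) = 0

/-- **YNG** (PORT by script of `NE.YNG`; proof: see the docstring in `helper37/NE`). -/
def YNG_stmt : Prop :=
  ∀ (p e : ℕ) (m : Pm) (M : Ideal (integralClosure ℤ ℂ)), Setup p M → EBc p m M → 2 * m.a + 5 ≤ e → ∀ (G : Type) [Group G] [Finite G] (G₀ : Subgroup G),
    G₀.Normal → ∀ χ₀ ∈ IrrOn G₀, (∀ g : G, SB M G₀ (cjF g χ₀) χ₀) → ∀ z x : G, Ucl p e m M G₀ χ₀ z x → ∀ d : ℤ,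
    cSum p G₀ ⊥ ⊤ (hf p M G₀ G₀ (omega χ₀) d) = 0

/-- **YTC** (short to medium; PORT of `NE.YTC`, `helper92/NE/YTC.lean`; `df` by YKT (1) and the identities `cc (ext0 i χ) (cls i.range (i y)) = cc χ (cls ⊤ y)`, `Cz i.range (i y) = (Cz ⊤ y).map i`: if `DefL p M ⊤ χ D y` then `DefL p M i.range (ext0 i χ) (D.map i) (i y)`). -/
def YTC_stmt : Prop :=
  ∀ (p e : ℕ) (m : Pm) (M : Ideal (integralClosure ℤ ℂ)), Setup p M → ∀ (G E A : Type) [Group G] [Group E] [Group A] [Finite G] [Finite E] (X : Extension G E A),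
    ∀ χ ∈ Irr G, ext0 X.inc χ ∈ IrrOn X.inc.range ∧
    (∀ z x : G, Ucl p e m M (⊤ : Subgroup G) χ z x → Ucl p e m M X.inc.range (ext0 X.inc χ) (X.inc z) (X.inc x)) ∧
    X.inc.range.Normal ∧
    (Stable X M χ → ∀ g : E, SB M X.inc.range (cjF g (ext0 X.inc χ)) (ext0 X.inc χ))

/-- **YNX** (PORT by script of `NE.YNX`; proof: see the docstring in `helper37/NE`). -/
def YNX_stmt : Prop :=
  ∀ (p e : ℕ) (m : Pm) (M : Ideal (integralClosure ℤ ℂ)), Setup p M → EBc p m M → 2 * m.a + 5 ≤ e →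
    ∀ (G E A : Type) [Group G] [Group E] [Group A] [Finite G] [Finite E] (X : Extension G E A), IsOp p (⊤ : Subgroup G) ⊥ →
    ∀ χ ∈ Irr G, ∀ z x : G, Ucl p e m M (⊤ : Subgroup G) χ z x → ∀ d : ℤ, altSum X p M χ d ⊤ = 0

/-- **YNU** (short; from YNX, RE of DC, D13 of DI, YE1, NDG, ZB.ZMN, CLS, TPR, B2; the part with the defect group as in `helper64/ZD/NDQ.lean`, the part with `U` as in NE.YNU, `helper27/NE/YNU.lean`). THE FINAL STATEMENT: Q1 in full for the class of THEOREM ZD. Proof: `κ = ⟨a, r, s, w, 1⟩`: `KZ p κ D` and `DefL p M ⊤ χ D x` as in `NDQ.lean`; `EBc p κ M`: ZMN. YE1 (6): `KY p e κ D`; YE1 (5): `z ∈ D` central of order `p ^ e`; NDG: `Ucl p e κ M ⊤ χ z x`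
(`x` commutes with `D`; `x ∈ ⊤`). `2 * a + 5 ≤ e`: YE1 (1). D13 and RE as in NE.YNU; YNX for `resE X V`. -/
def YNU_stmt : Prop :=
  ∀ (p : ℕ) (M : Ideal (integralClosure ℤ ℂ)), Setup p M → ∀ a r s w : ℕ, a ≤ s → a + 4 ≤ w →
    (∀ κ : Pm, κ.a = a → κ.r = r → κ.w = w → BDK p κ M w) →
    ∀ (G E A : Type) [Group G] [Group E] [Group A] [Finite G] [Finite E] (X : Extension G E A), IsOp p (⊤ : Subgroup G) ⊥ →
    ∀ χ ∈ Irr G, ∀ D : Subgroup G, Pool.Agent.MAP.DefectGroup p M χ D → ∀ Z ≤ D,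
    (∀ z ∈ Z, ∀ x ∈ D, z * x = x * z) → Nat.card D ≤ p ^ a * Nat.card Z → {z | z ∈ Z ∧ z ^ p = 1}.ncard ≤ p ^ r →
    (Om p (s - a) Z).ncard ≤ p → (∃ z ∈ Z, z ^ p ^ (s + w) ≠ 1) → ∀ (d : ℤ) (U : Subgroup A), altSum X p M χ d U = 0

end Pool.Agent.ND.NY.E
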