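-- PORT BY SCRIPT of helper16/NE/YAV.lean to the class of THEOREM ZD
import Pool.Agent.helper70.NZ.SpecB

/-!
# Row ne:YAV (MP_baa4d7_al): avoiding two sets
-/

set_option autoImplicit false

namespace Pool.Agent.ND.NY.E

open Pool.Agent.helper58.DC Pool.Agent.DI Pool.Agent.GR Pool.Agent.OB Pool.Agent.DR Pool.Agent.FI Pool.Agent.FI3 Pool.Agent.FI4 Pool.Agent.FI4I Pool.Agent.LE Pool.Agent.L5 Pool.Agent.NAB Pool.Agent.NE
open Pool.Agent.ZB (Pm Om KZ EQ BQ lQ MZc BDK)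

theorem YAV (hYFY : YFY_stmt) (hGOB : GOB_stmt) : YAV_stmt := by
  classical
  intro p e m t M hM G _ _ N χ Z z x hZN hS w hw θ₀ hθ₀ A B hA hB
  have hp : p.Prime := hM.pr
  obtain ⟨-, o2, o3, -⟩ := hGOB p e t hp G hZN.tx Z
  set O : Set (G → ℂ) := {θ₁ | orb Z t θ₀ θ₁} with hO
  obtain ⟨hfin, hcard⟩ := hS.sz θ₀ hθ₀
  have hOf : O.Finite := by
    rw [← Set.finite_coe_iff]
    exact hfin
  have hOc : p ^ 3 ≤ O.ncard := by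
    rw [← Nat.card_coe_set_eq]
    exact hcard
  have key : ∀ A : Set (G → ℂ), (∀ θ₁ ∈ A, ∀ θ₂ ∈ A, orb Z t θ₀ θ₁ → orb Z t θ₀ θ₂ → ∃ a ∈ Nw N w ⊓ nz Z, θ₂ = cjF a θ₁) →
      (A ∩ O).ncard ≤ p - 1 := by
    intro A hA
    rcases (A ∩ O).eq_empty_or_nonempty with h0 | ⟨θ₁, h1, h2⟩
    · rw [h0, Set.ncard_empty]
      exact Nat.zero_le _
    · have h3 : θ₁ ∈ GN p e m M N χ (N ⊓ cz Z) Z := by
        obtain ⟨ν, hν⟩ := (h2 : orb Z t θ₀ θ₁)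
        rw [hν]
        exact (hS.sm θ₀ hθ₀ ν).1
      obtain ⟨f1, f2⟩ := hYFY p e m t M hM G N χ Z z x hZN hS w hw θ₁ h3
      refine le_trans (Set.ncard_le_ncard ?_ f1) f2
      rintro θ₂ ⟨h4, h5⟩
      exact ⟨o3 θ₁ θ₀ θ₂ (o2 θ₀ θ₁ h2) h5, hA θ₁ h1 θ₂ h4 h2 h5⟩
  have hex : ∃ θ₁ ∈ O, θ₁ ∉ A ∧ θ₁ ∉ B := by
    by_contra hcon
    push Not at hcon
    have h1 : O ⊆ (A ∩ O) ∪ (B ∩ O) := by
      intro θ₁ h2
      by_cases h3 : θ₁ ∈ A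
      · exact Or.inl ⟨h3, h2⟩
      · exact Or.inr ⟨hcon θ₁ h2 h3, h2⟩
    have h2 : O.ncard ≤ (A ∩ O).ncard + (B ∩ O).ncard :=
      (Set.ncard_le_ncard h1 ((hOf.subset Set.inter_subset_right).union (hOf.subset Set.inter_subset_right))).trans
        (Set.ncard_union_le _ _)
    have h3 := key A hA
    have h4 := key B hB
    have h5 : 2 ≤ p := hp.two_le
    have h6 : p ^ 3 = p * p * p := by ring
    have h7 : 2 * 2 * p ≤ p * p * p := by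
      exact Nat.mul_le_mul_right p (Nat.mul_le_mul h5 h5)
    omega
  obtain ⟨θ₁, ⟨ν, hν⟩, h2, h3⟩ := hex
  exact ⟨ν, hν ▸ h2, hν ▸ h3⟩

end Pool.Agent.ND.NY.E
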