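-- PORT BY SCRIPT of helper3/NE/YEB.lean to the class of THEOREM ZD
import Pool.Agent.helper70.NZ.SpecB

/-!
# Row YEB of THEOREM NE (MP_baa4d7_al): the length of the orbit of `ψ`
-/

set_option autoImplicit false

namespace Pool.Agent.ND.NY.E

open Pool.Agent.helper58.DC Pool.Agent.DI Pool.Agent.GR Pool.Agent.OB Pool.Agent.DR Pool.Agent.FI Pool.Agent.FI3 Pool.Agent.FI4 Pool.Agent.FI4I Pool.Agent.LE Pool.Agent.L5 Pool.Agent.NAB Pool.Agent.NE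
open Pool.Agent.ZB (Pm Om KZ EQ BQ lQ MZc BDK)

section

variable {G : Type} [Group G]

theorem YEB_mul (a b : G) (ψ : G → ℂ) : cjF a (cjF b ψ) = cjF (a * b) ψ := by
  funext g
  simp [funMap, mul_assoc]

theorem YEB_app (a : G) (ψ : G → ℂ) (x : G) : cjF a ψ x = ψ (a⁻¹ * x * a) := by
  simp [funMap]

theorem YEB_one (ψ : G → ℂ) : cjF (1 : G) ψ = ψ := by
  funext g
  simp [funMap]

theorem YEB_inz {Z : Subgroup G} {n : G} (hn : n ∈ nz Z) (y : G) : n⁻¹ * y * n ∈ Z ↔ y ∈ Z := by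
  have h := Subgroup.mem_normalizer_iff.1 hn (n⁻¹ * y * n)
  have h1 : n * (n⁻¹ * y * n) * n⁻¹ = y := by group
  rw [h1] at h
  exact h

theorem YEB_map {L : Subgroup G} {g : G} (hg : g ∈ nz L) : L.map (MulAut.conj g).toMonoidHom = L := by
  ext x
  constructor
  · rintro ⟨y, hy, rfl⟩
    have h := (Subgroup.mem_normalizer_iff.1 hg y).1 hy
    simpa using h
  · intro hx
    refine ⟨g⁻¹ * x * g, (YEB_inz hg x).2 hx, ?_⟩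
    simp [mul_assoc]

theorem YEB_cz {Z : Subgroup G} {g : G} (hg : g ∈ nz Z) : g ∈ nz (cz Z) := by
  have key : ∀ m : G, m ∈ nz Z → ∀ c, c ∈ cz Z → m * c * m⁻¹ ∈ cz Z := by
    intro m hm c hc
    rw [Subgroup.mem_centralizer_iff] at hc ⊢
    intro e he
    have h2 := hc _ ((YEB_inz hm e).2 he)
    have h3 : e * (m * c * m⁻¹) = m * (m⁻¹ * e * m * c) * m⁻¹ := by group
    have h4 : m * c * m⁻¹ * e = m * (c * (m⁻¹ * e * m)) * m⁻¹ := by group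
    rw [h3, h4, h2]
  rw [Subgroup.mem_normalizer_iff]
  intro c
  refine ⟨key g hg c, fun hc => ?_⟩
  have h5 := key g⁻¹ ((nz Z).inv_mem hg) _ hc
  have h6 : g⁻¹ * (g * c * g⁻¹) * g⁻¹⁻¹ = c := by group
  rwa [h6] at h5

theorem YEB_inf {A B : Subgroup G} {g : G} (hA : g ∈ nz A) (hB : g ∈ nz B) : g ∈ nz (A ⊓ B) := by
  rw [Subgroup.mem_normalizer_iff]
  intro x
  rw [Subgroup.mem_inf, Subgroup.mem_inf]
  exact and_congr (Subgroup.mem_normalizer_iff.1 hA x) (Subgroup.mem_normalizer_iff.1 hB x)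

theorem YEB_mt {C : Subgroup G} {g : G} (hg : g ∈ nz C) (φ ψ : G → ℂ) : FI.mt C (cjF g φ) (cjF g ψ) = FI.mt C φ ψ := by
  have h : ∑ᶠ x ∈ (C : Set G), cjF g φ x * cjF g ψ x⁻¹ = ∑ᶠ x ∈ (C : Set G), φ x * ψ x⁻¹ := by
    refine finsum_mem_eq_of_bijOn (fun x => g⁻¹ * x * g) ⟨?_, ?_, ?_⟩ ?_
    · intro x hx
      exact (YEB_inz hg x).2 hx
    · intro x _ y _ hxy
      have h1 : g⁻¹ * x * g = g⁻¹ * y * g := hxy
      exact mul_left_cancel (mul_right_cancel h1)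
    · intro y hy
      refine ⟨g * y * g⁻¹, (Subgroup.mem_normalizer_iff.1 hg y).1 hy, ?_⟩
      change g⁻¹ * (g * y * g⁻¹) * g = y
      group
    · intro x _
      rw [YEB_app, YEB_app]
      have h1 : g⁻¹ * x⁻¹ * g = (g⁻¹ * x * g)⁻¹ := by group
      rw [h1]
  unfold FI.mt
  rw [h]

end

theorem YEB (hYEA : YEA_stmt) (hYAV : YAV_stmt) (hYGR : YGR_stmt) (hYCL : YCL_stmt) (hYGW : YGW_stmt) (hCJG : CJG_stmt) : YEB_stmt := by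
  intro p e m t M hS G _ _ N χ Z z x w hHW hSTR L hL θ₀ hθ₀ hw ψ hψ θ' hθ' hmt
  classical
  have hWW : Pool.Agent.NE.WW p N Z w := hHW.ww
  have hp : p.Prime := hS.pr
  obtain ⟨hψG, ε, hε, hRw⟩ := hψ
  obtain ⟨θ₀', ε', hθ₀', hε', hid⟩ := hYEA p e m t M hS G N χ Z z x w hHW hSTR L hL θ₀ hθ₀ hw ψ hψG ε hRw
  obtain ⟨⟨hNN', hwN', hN'n⟩, -, -, -, -, -, s, hs, hsn, hC'⟩ := hYGW p hp G N Z w hWW
  have hle : N ⊓ nz Z ≤ Nw N w ⊓ nz Z := inf_le_inf_right _ hNN'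
  -- the elements of `N' ⊓ nz Z` normalise `C`
  have hnC : ∀ g ∈ Nw N w ⊓ nz Z, g ∈ nz (N ⊓ cz Z) := fun g hg => YEB_inf (hN'n hg.1) (YEB_cz hg.2)
  -- two characters of `C` under characters of `C'` in the same orbit
  have hB : ∀ θ₁ ∈ {θ : G → ℂ | θ ∈ IrrOn (N ⊓ cz Z) ∧ rN' N (Nw N w) Z θ θ₀' ≠ 0}, ∀ θ₂ ∈ {θ : G → ℂ | θ ∈ IrrOn (N ⊓ cz Z) ∧ rN' N (Nw N w) Z θ θ₀' ≠ 0},
      orb Z t θ₀ θ₁ → orb Z t θ₀ θ₂ → ∃ a ∈ Nw N w ⊓ nz Z, θ₂ = cjF a θ₁ := by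
    rintro θ₁ ⟨h1, h1'⟩ θ₂ ⟨h2, h2'⟩ - -
    obtain ⟨⟨⟨φ₁, hφ₁, hm₁, a, ha, rfl⟩⟩, -⟩ := Nat.card_ne_zero.1 h1'
    obtain ⟨⟨⟨φ₂, hφ₂, hm₂, b, hb, rfl⟩⟩, -⟩ := Nat.card_ne_zero.1 h2'
    have hg : b * a⁻¹ ∈ Nw N w ⊓ nz Z := (Nw N w ⊓ nz Z).mul_mem hb ((Nw N w ⊓ nz Z).inv_mem ha)
    have hgC := hnC _ hg
    have h3 : FI.mt (N ⊓ cz Z) (cjF b θ₀') (cjF (b * a⁻¹) θ₁) ≠ 0 := by
      have h4 : cjF b θ₀' = cjF (b * a⁻¹) (cjF a θ₀') := by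
        rw [YEB_mul, inv_mul_cancel_right]
      rw [h4, YEB_mt hgC]
      exact hm₁
    have h5 : cjF (b * a⁻¹) θ₁ ∈ IrrOn (N ⊓ cz Z) := by
      have h6 := (hCJG G M p (b * a⁻¹) (N ⊓ cz Z)).1 θ₁ h1
      rwa [YEB_map hgC] at h6
    have hφ₂' : cjF b θ₀' ∈ IrrOn ((N ⊓ cz Z) ⊔ Subgroup.zpowers s) := by
      rw [← hC']
      exact hφ₂
    obtain ⟨k, hk⟩ := ((hYCL G (N ⊓ cz Z) s hsn).2.2.2 _ hφ₂' _ h5 _ h2 h3).1 hm₂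
    refine ⟨s ^ k * (b * a⁻¹), (Nw N w ⊓ nz Z).mul_mem ((Nw N w ⊓ nz Z).pow_mem ⟨hs.1, Subgroup.centralizer_le_normalizer _ hs.2⟩ k) hg, ?_⟩
    rw [hk, YEB_mul]
  have hA : ∀ θ₁ ∈ {θ : G → ℂ | ∃ h ∈ N ⊓ nz Z, cjF h θ₀ = θ}, ∀ θ₂ ∈ {θ : G → ℂ | ∃ h ∈ N ⊓ nz Z, cjF h θ₀ = θ},
      orb Z t θ₀ θ₁ → orb Z t θ₀ θ₂ → ∃ a ∈ Nw N w ⊓ nz Z, θ₂ = cjF a θ₁ := by
    rintro θ₁ ⟨a, ha, rfl⟩ θ₂ ⟨b, hb, rfl⟩ - -
    refine ⟨b * a⁻¹, hle ((N ⊓ nz Z).mul_mem hb ((N ⊓ nz Z).inv_mem ha)), ?_⟩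
    rw [YEB_mul, inv_mul_cancel_right]
  obtain ⟨ν, hν1, hν2⟩ := hYAV p e m t M hS G N χ Z z x hHW.zn hSTR w hWW θ₀ hθ₀ _ _ hA hB
  have hst : st Z t ν θ₀ ∈ IrrOn (N ⊓ cz Z) := (hSTR.sm θ₀ hθ₀ ν).1.1
  have e1 : iH N Z θ₀ θ₀ = 1 := if_pos ⟨1, (N ⊓ nz Z).one_mem, YEB_one θ₀⟩
  have e2 : iH N Z θ₀ (st Z t ν θ₀) = 0 := if_neg hν1
  have e3 : rN' N (Nw N w) Z (st Z t ν θ₀) θ₀' = 0 := by
    by_contra hne
    exact hν2 ⟨hst, hne⟩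
  have hid' := hid θ₀ hθ₀ ν
  rw [e1, e2, e3, Nat.cast_zero, sub_zero, sub_zero, mul_one] at hid'
  -- the orbit is not empty
  have hfin : {φ : G → ℂ | ∃ k : ℕ, φ = cjF (w ^ k) ψ}.Finite := by
    refine (Set.finite_range (fun g : G => cjF g ψ)).subset ?_
    rintro φ ⟨k, rfl⟩
    exact ⟨w ^ k, rfl⟩
  have hpos : 0 < {φ : G → ℂ | ∃ k : ℕ, φ = cjF (w ^ k) ψ}.ncard := by
    rw [Set.ncard_pos hfin]
    exact ⟨cjF (w ^ 0) ψ, 0, rfl⟩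
  have hr : {φ : G → ℂ | ∃ k : ℕ, φ = cjF (w ^ k) ψ}.ncard = rN' N (Nw N w) Z θ₀ θ₀' := by
    generalize {φ : G → ℂ | ∃ k : ℕ, φ = cjF (w ^ k) ψ}.ncard = r at hid' hpos
    generalize rN' N (Nw N w) Z θ₀ θ₀' = n at hid'
    rcases hε with rfl | rfl <;> rcases hε' with rfl | rfl
    · rw [mul_one, one_mul] at hid'
      exact_mod_cast hid'
    · exfalso
      rw [mul_one, neg_one_mul] at hid'
      have h1 : ((r + n : ℕ) : ℂ) = 0 := by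
        push_cast
        rw [hid']
        ring
      have h2 : r + n = 0 := by exact_mod_cast h1
      omega
    · exfalso
      rw [mul_neg_one, one_mul] at hid'
      have h1 : ((r + n : ℕ) : ℂ) = 0 := by
        push_cast
        rw [← hid']
        ring
      have h2 : r + n = 0 := by exact_mod_cast h1
      omega
    · rw [mul_neg_one, neg_one_mul] at hid'
      have h1 := neg_injective hid'
      exact_mod_cast h1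
  rw [hr] at hpos ⊢
  obtain ⟨⟨⟨θ'', hθ'', hm'', a, ha, hae⟩⟩, -⟩ := Nat.card_ne_zero.1 hpos.ne'
  have h7 : rN' N (Nw N w) Z θ₀ θ₀' = rN' N (Nw N w) Z θ₀ θ'' := by
    unfold rN'
    refine Nat.card_congr (Equiv.subtypeEquivRight fun φ => ?_)
    refine and_congr Iff.rfl (and_congr Iff.rfl ?_)
    constructor
    · rintro ⟨b, hb, rfl⟩
      refine ⟨b * a⁻¹, (Nw N w ⊓ nz Z).mul_mem hb ((Nw N w ⊓ nz Z).inv_mem ha), ?_⟩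
      rw [← hae, YEB_mul, inv_mul_cancel_right]
    · rintro ⟨b, hb, rfl⟩
      refine ⟨b * a, (Nw N w ⊓ nz Z).mul_mem hb ha, ?_⟩
      rw [← hae, YEB_mul]
  rw [h7]
  exact hYGR p hp G N Z w hWW θ₀ hθ₀.1 θ'' hθ'' θ' hθ' hm'' hmt

end Pool.Agent.ND.NY.E
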