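-- PORT BY SCRIPT of helper72/NE/YFY.lean to the class of THEOREM ZD
import Pool.Agent.helper70.NZ.SpecB
import Pool.Agent.helper37.ND.GKR
import Pool.Agent.helper59.FI.Base

set_option autoImplicit false

namespace Pool.Agent.ND.NY.E

open Pool.Agent.helper58.DC Pool.Agent.DI Pool.Agent.GR Pool.Agent.OB Pool.Agent.DR Pool.Agent.FI Pool.Agent.FI3 Pool.Agent.FI4 Pool.Agent.FI4I Pool.Agent.LE Pool.Agent.L5 Pool.Agent.NAB Pool.Agent.NE
open Pool.Agent.ZB (Pm Om KZ EQ BQ lQ MZc BDK)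

section

variable {G : Type} [Group G]

theorem YFY_mul (a b : G) (θ : G → ℂ) : cjF (a * b) θ = cjF a (cjF b θ) := by
  funext x
  rw [cjF_apply, cjF_apply, cjF_apply]
  congr 1
  group

theorem YFY_one (θ : G → ℂ) : cjF (1 : G) θ = θ := by
  funext x
  rw [cjF_apply]
  congr 1
  group

/-- a `p`-regular element which normalises the cyclic `p`-group `⟨u⟩` and centralises its subgroup of order `p` centralises it -/
theorem YFY_cz [Finite G] {p κ : ℕ} (hp : p.Prime) {u c : G} (hu : orderOf u = p ^ (κ + 1)) (hc : PReg p c) (hn : c ∈ nz (Subgroup.zpowers u))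
    (hE : c * u ^ p ^ κ = u ^ p ^ κ * c) : c ∈ cz (Subgroup.zpowers u) := by
  have h1 : c * u * c⁻¹ ∈ Subgroup.zpowers u := (Subgroup.mem_normalizer_iff.1 hn u).1 (Subgroup.mem_zpowers u)
  obtain ⟨n, h2⟩ := Subgroup.mem_zpowers_iff.1 h1
  have h3 : (p : ℤ) ∣ n - 1 := by
    have h4 : u ^ (n * (p : ℤ) ^ κ) = u ^ ((p : ℤ) ^ κ) := by
      rw [zpow_mul, h2]
      have h5 : (c * u * c⁻¹) ^ ((p : ℤ) ^ κ) = c * u ^ ((p : ℤ) ^ κ) * c⁻¹ := conj_zpow
      rw [h5]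
      have h6 : u ^ ((p : ℤ) ^ κ) = u ^ p ^ κ := by
        rw [← zpow_natCast]
        push_cast
        rfl
      rw [h6, hE, mul_inv_cancel_right]
    have h5 : u ^ ((n - 1) * (p : ℤ) ^ κ) = 1 := by
      rw [sub_mul, one_mul, zpow_sub, h4, mul_inv_cancel]
    have h6 := orderOf_dvd_iff_zpow_eq_one.2 h5
    rw [hu] at h6
    push_cast at h6
    rw [pow_succ, mul_comm ((p : ℤ) ^ κ) (p : ℤ)] at h6
    exact Int.dvd_of_mul_dvd_mul_right (pow_ne_zero _ (by exact_mod_cast hp.ne_zero)) h6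
  have h4 : ∀ j : ℕ, c ^ j * u * (c ^ j)⁻¹ = u ^ (n ^ j) := by
    intro j
    induction j with
    | zero => simp
    | succ j ih =>
      have h5 : c ^ (j + 1) * u * (c ^ (j + 1))⁻¹ = c * (c ^ j * u * (c ^ j)⁻¹) * c⁻¹ := by
        rw [pow_succ']
        group
      rw [h5, ih, ← conj_zpow, ← h2, ← zpow_mul, pow_succ']
  have h5 : u ^ (n ^ p ^ κ) = u := by
    have h6 := dvd_sub_pow_of_dvd_sub h3 κ
    rw [one_pow] at h6
    have h7 : (orderOf u : ℤ) ∣ n ^ p ^ κ - 1 := by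
      rw [hu]
      push_cast
      exact h6
    have h8 := orderOf_dvd_iff_zpow_eq_one.1 h7
    rw [zpow_sub, zpow_one] at h8
    exact mul_inv_eq_one.1 h8
  have h6 : c ^ p ^ κ ∈ cz (Subgroup.zpowers u) := by
    rw [Subgroup.mem_centralizer_iff]
    intro y hy
    obtain ⟨i, rfl⟩ := Subgroup.mem_zpowers_iff.1 hy
    have h7 := h4 (p ^ κ)
    rw [h5] at h7
    have h8 : Commute (c ^ p ^ κ) u := by
      have h9 : c ^ p ^ κ * u = u * c ^ p ^ κ := by
        conv_rhs => rw [← h7]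
        group
      exact h9
    exact (h8.zpow_right i).symm
  have h7 : c ∈ Subgroup.zpowers (c ^ p ^ κ) := by
    have h8 : (p ^ κ).Coprime (orderOf c) := Nat.Coprime.pow_left _ ((Nat.Prime.coprime_iff_not_dvd hp).2 hc)
    obtain ⟨m, hm⟩ := exists_pow_eq_self_of_coprime h8
    exact Subgroup.mem_zpowers_iff.2 ⟨m, by rw [zpow_natCast]; exact hm⟩
  exact (Subgroup.zpowers_le.2 h6) h7

end

theorem YFY (hYGW : YGW_stmt) (hZLM : ZLM_stmt) (hZGP : ZGP_stmt) (hGOB : GOB_stmt) : YFY_stmt := by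
  classical
  intro p e m t M hS G _ _ N χ Z z x hZN hST w hW θ hθ
  have hp := hS.pr
  obtain ⟨⟨g1, g2, g3⟩, g4, -⟩ := hYGW p hp G N Z w hW
  have hme : m.a + 3 ≤ e := by have := hZN.em; omega
  obtain ⟨-, -, ⟨z3, -⟩, -, ⟨-, -, z5, -, -⟩, -, -, -⟩ := hZGP p e m.a hp hme G z hZN.uc.pe hZN.uc.od
  rw [hZN.zz] at z3 z5
  obtain ⟨o1, o2, o3, o4⟩ := hGOB p e t hp G hZN.tx Z
  have hlam := hZLM p e t hp G hZN.tx Z
  -- powers
  have hu : orderOf (z ^ p ^ (e - (m.a + 3))) = p ^ (m.a + 2 + 1) := by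
    have h1 : p ^ e = p ^ (e - (m.a + 3)) * p ^ (m.a + 3) := by rw [← pow_add]; congr 1; omega
    rw [orderOf_pow_of_dvd (pow_ne_zero _ hp.ne_zero) (by rw [hZN.uc.od, h1]; exact dvd_mul_right _ _), hZN.uc.od, h1]
    exact Nat.mul_div_cancel_left _ (pow_pos hp.pos _)
  have hzE : (z ^ p ^ (e - (m.a + 3))) ^ p ^ (m.a + 2) = z ^ p ^ (e - 1) := by
    rw [← pow_mul, ← pow_add]
    congr 2
    omega
  have hu0 : orderOf (z ^ p ^ (e - 1)) = p := by
    have h1 : p ^ e = p ^ (e - 1) * p := by rw [← pow_succ]; congr 1; omega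
    rw [orderOf_pow_of_dvd (pow_ne_zero _ hp.ne_zero) (by rw [hZN.uc.od, h1]; exact dvd_mul_right _ _), hZN.uc.od, h1]
    exact Nat.mul_div_cancel_left _ (pow_pos hp.pos _)
  have hZz : Z = Subgroup.zpowers (z ^ p ^ (e - (m.a + 3))) := hZN.zz.symm
  -- closure
  have c1 : ∀ a ∈ Nw N w ⊓ nz Z, orb Z t θ (cjF a θ) → ∀ i : ℕ, orb Z t θ (cjF (a ^ i) θ) := by
    intro a ha hb i
    induction i with
    | zero => rw [pow_zero, YFY_one]; exact o1 θ
    | succ i ih =>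
      rw [pow_succ, YFY_mul]
      exact o3 _ _ _ ih (o4 _ ((nz Z).pow_mem (Subgroup.mem_inf.1 ha).2 i) _ _ hb)
  -- claim
  have c2 : ∀ a ∈ Nw N w ⊓ nz Z, orb Z t θ (cjF a θ) → a * z ^ p ^ (e - 1) = z ^ p ^ (e - 1) * a → cjF a θ = θ := by
    intro a ha hb hE
    obtain ⟨b, c, hb1, hc1, hbc, -, hb2, hc2, -⟩ := GKR_dec hp a
    have hb3 : b ∈ Nw N w ⊓ nz Z := (Subgroup.zpowers_le.2 ha) hb2
    have hc3 : c ∈ Nw N w ⊓ nz Z := (Subgroup.zpowers_le.2 ha) hc2
    have hb4 : orb Z t θ (cjF b θ) := by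
      obtain ⟨i, rfl⟩ := (mem_powers_iff_mem_zpowers.2 hb2)
      exact c1 a ha hb i
    have hc4 : orb Z t θ (cjF c θ) := by
      obtain ⟨i, rfl⟩ := (mem_powers_iff_mem_zpowers.2 hc2)
      exact c1 a ha hb i
    have hb5 : b ∈ N := g4 b (Subgroup.mem_inf.1 hb3).1 hb1
    have hb6 : b ∈ cz Z := by
      obtain ⟨k, hk⟩ := hb1
      obtain ⟨ν, hν⟩ := hb4
      refine hST.fx θ hθ b (Subgroup.mem_inf.2 ⟨hb5, (Subgroup.mem_inf.1 hb3).2⟩) ?_ k ?_
      · rw [hν]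
        exact (hST.sm θ hθ ν).2
      · rw [hk]
        exact (cz Z).one_mem
    have hb7 : cjF b θ = θ := by
      funext v
      rw [cjF_apply]
      have h1 := IrrOn_conj hθ.1 (Subgroup.inv_mem _ (Subgroup.mem_inf.2 ⟨hb5, hb6⟩)) v
      rw [inv_inv] at h1
      exact h1
    have hc5 : c * z ^ p ^ (e - 1) = z ^ p ^ (e - 1) * c := by
      obtain ⟨i, rfl⟩ := Subgroup.mem_zpowers_iff.1 hc2
      exact (Commute.zpow_left hE i)
    have hc6 : c ∈ cz Z := by
      rw [hZz]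
      refine YFY_cz hp hu hc1 ?_ ?_
      · rw [← hZz]
        exact (Subgroup.mem_inf.1 hc3).2
      · rw [hzE]
        exact hc5
    have hc7 : cjF c θ = θ := by
      obtain ⟨ν, hν⟩ := hc4
      have e1 : ∀ (ν' : Z →* ℂˣ) (ψ : G → ℂ), cjF c (st Z t ν' ψ) = st Z t ν' (cjF c ψ) := by
        intro ν' ψ
        funext v
        rw [cjF_apply]
        show lam Z t ν' (c⁻¹ * v * c) * ψ (c⁻¹ * v * c) = lam Z t ν' v * cjF c ψ v
        rw [cjF_apply]
        have h1 := (hlam ν').2.2.1 c⁻¹ ((cz Z).inv_mem hc6) v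
        rw [inv_inv] at h1
        rw [h1]
      have e2 : ∀ (j : ℕ) (v : G), lam Z t (ν ^ j) v = lam Z t ν v ^ j := by
        intro j v
        unfold lam
        split_ifs with h
        · rw [MonoidHom.pow_apply, Units.val_pow_eq_pow_val]
        · rw [one_pow]
      have e3 : ∀ j : ℕ, cjF (c ^ j) θ = st Z t (ν ^ j) θ := by
        intro j
        induction j with
        | zero =>
          rw [pow_zero, YFY_one]
          funext v
          show θ v = lam Z t (ν ^ 0) v * θ v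
          rw [e2, pow_zero, one_mul]
        | succ j ih =>
          rw [pow_succ', YFY_mul, ih, e1, hν]
          funext v
          show lam Z t (ν ^ j) v * (lam Z t ν v * θ v) = lam Z t (ν ^ (j + 1)) v * θ v
          rw [e2, e2, pow_succ]
          ring
      have e4 := e3 (orderOf c)
      rw [pow_orderOf_eq_one, YFY_one] at e4
      rw [hν]
      funext v
      show lam Z t ν v * θ v = θ v
      by_cases h0 : θ v = 0
      · rw [h0, mul_zero]
      · have e5 := congrFun e4 v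
        change θ v = lam Z t (ν ^ orderOf c) v * θ v at e5
        rw [e2] at e5
        have e6 : lam Z t ν v ^ orderOf c = 1 := by
          have h1 : (lam Z t ν v ^ orderOf c) * θ v = 1 * θ v := by rw [one_mul]; exact e5.symm
          exact mul_right_cancel₀ h0 h1
        have e7 : lam Z t ν v ^ p ^ (m.a + 3) = 1 := by
          rw [← e2]
          have h1 : ν ^ p ^ (m.a + 3) = 1 := by
            refine MonoidHom.ext fun y => ?_
            rw [MonoidHom.pow_apply, ← map_pow, MonoidHom.one_apply, ← z3, pow_card_eq_one', map_one]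
          rw [h1]
          exact (hlam ν).2.1.2 v
        have e8 : lam Z t ν v ^ Nat.gcd (orderOf c) (p ^ (m.a + 3)) = 1 := pow_gcd_eq_one.2 ⟨e6, e7⟩
        have e9 : Nat.gcd (orderOf c) (p ^ (m.a + 3)) = 1 := Nat.Coprime.pow_right _ ((Nat.Prime.coprime_iff_not_dvd hp).2 hc1).symm
        rw [e9, pow_one] at e8
        rw [e8, one_mul]
    rw [← hbc, YFY_mul, hc7, hb7]
  -- two elements with the same action
  have c3 : ∀ a ∈ Nw N w ⊓ nz Z, orb Z t θ (cjF a θ) → ∀ b ∈ Nw N w ⊓ nz Z, orb Z t θ (cjF b θ) → a * z ^ p ^ (e - 1) * a⁻¹ = b * z ^ p ^ (e - 1) * b⁻¹ →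
      cjF a θ = cjF b θ := by
    intro a ha ha' b hb hb' hab
    have h1 : orb Z t (cjF a⁻¹ θ) θ := by
      have h2 := o4 a⁻¹ ((nz Z).inv_mem (Subgroup.mem_inf.1 ha).2) _ _ ha'
      rwa [← YFY_mul, inv_mul_cancel, YFY_one] at h2
    have h2 := o4 a⁻¹ ((nz Z).inv_mem (Subgroup.mem_inf.1 ha).2) _ _ hb'
    rw [← YFY_mul] at h2
    have h3 := c2 (a⁻¹ * b) (Subgroup.mul_mem _ (Subgroup.inv_mem _ ha) hb) (o3 _ _ _ (o2 _ _ h1) h2) (by
      have h4 : a⁻¹ * b * z ^ p ^ (e - 1) = a⁻¹ * (b * z ^ p ^ (e - 1) * b⁻¹) * b := by group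
      rw [h4, ← hab]
      group)
    have h4 : cjF b θ = cjF a (cjF (a⁻¹ * b) θ) := by
      rw [← YFY_mul]
      congr 1
      group
    rw [h4, h3]
  have c4 : ∀ v : G, ∃ θ₁ : G → ℂ, ∀ a ∈ Nw N w ⊓ nz Z, orb Z t θ (cjF a θ) → a * z ^ p ^ (e - 1) * a⁻¹ = v → cjF a θ = θ₁ := by
    intro v
    by_cases h : ∃ a ∈ Nw N w ⊓ nz Z, orb Z t θ (cjF a θ) ∧ a * z ^ p ^ (e - 1) * a⁻¹ = v
    · obtain ⟨a, h1, h2, h3⟩ := h
      exact ⟨cjF a θ, fun b hb hb' hbv => (c3 a h1 h2 b hb hb' (h3.trans hbv.symm)).symm⟩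
    · exact ⟨θ, fun a h1 h2 h3 => (h ⟨a, h1, h2, h3⟩).elim⟩
  choose g hg using c4
  have hEc : Nat.card (Eg p e z) = p := by
    unfold Eg
    rw [Nat.card_zpowers]
    exact hu0
  have c5 : {θ₁ : G → ℂ | orb Z t θ θ₁ ∧ ∃ a ∈ Nw N w ⊓ nz Z, θ₁ = cjF a θ} ⊆ g '' ((Eg p e z : Set G) \ {1}) := by
    rintro θ₁ ⟨h1, a, h2, rfl⟩
    refine ⟨a * z ^ p ^ (e - 1) * a⁻¹, ⟨?_, ?_⟩, (hg _ a h2 h1 rfl).symm⟩
    · exact (Subgroup.mem_normalizer_iff.1 (z5 (Subgroup.mem_inf.1 h2).2) _).1 (Subgroup.mem_zpowers _)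
    · intro h3
      have h4 : z ^ p ^ (e - 1) = 1 := by
        have h5 : a * z ^ p ^ (e - 1) * a⁻¹ = 1 := h3
        have h6 := congrArg (fun y => a⁻¹ * y * a) h5
        simp only [mul_one, inv_mul_cancel] at h6
        rw [← h6]
        group
      rw [h4, orderOf_one] at hu0
      exact hp.one_lt.ne hu0
  have hfin : ((Eg p e z : Set G) \ {1}).Finite := Set.toFinite _
  refine ⟨(hfin.image g).subset c5, ?_⟩
  calc _ ≤ (g '' ((Eg p e z : Set G) \ {1})).ncard := Set.ncard_le_ncard c5 (hfin.image g)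
    _ ≤ ((Eg p e z : Set G) \ {1}).ncard := Set.ncard_image_le hfin
    _ = (Eg p e z : Set G).ncard - 1 := Set.ncard_sdiff_singleton_of_mem (Eg p e z).one_mem
    _ = p - 1 := by
      have h1 : (Eg p e z : Set G).ncard = Nat.card (Eg p e z) := rfl
      rw [h1, hEc]

end Pool.Agent.ND.NY.E
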