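-- PORT BY SCRIPT of helper66/NE/YGA.lean to the class of THEOREM ZD
import Pool.Agent.helper70.NZ.SpecA

/-!
# Row ne:YGA (MP_baa4d7_al): the hypothesis `ZN` for `N = ⊤`
-/

set_option autoImplicit false

namespace Pool.Agent.ND.NY.E

open Pool.Agent.helper58.DC Pool.Agent.DI Pool.Agent.GR Pool.Agent.OB Pool.Agent.DR Pool.Agent.FI Pool.Agent.FI3 Pool.Agent.FI4 Pool.Agent.FI4I Pool.Agent.LE Pool.Agent.L5 Pool.Agent.NAB Pool.Agent.NE
open Pool.Agent.ZB (Pm Om KZ EQ BQ lQ MZc BDK)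

theorem YGA (hGBC : GBC_stmt) : YGA_stmt := by
  intro p e m t M hS G _ _ χ Z z x h
  have he : m.a + 3 ≤ e := by have := h.em; omega
  refine ⟨⟨h.em, h.tx, h.ch, h.uc, h.zz⟩, fun L => rfl, top_inf_eq _, top_inf_eq _, top_inf_eq _, ?_⟩
  exact (hGBC p e m M hS he G χ (⊤ : Subgroup G) Z).2.1 h.ch z x h.uc h.zz

end Pool.Agent.ND.NY.E
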