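-- PORT BY SCRIPT of helper48/NE/YSN.lean to the class of THEOREM ZD
import Pool.Agent.helper70.NZ.SpecA

set_option autoImplicit false

namespace Pool.Agent.ND.NY.E

open Pool.Agent.helper58.DC Pool.Agent.DI Pool.Agent.GR Pool.Agent.OB Pool.Agent.DR Pool.Agent.FI Pool.Agent.FI3 Pool.Agent.FI4 Pool.Agent.FI4I Pool.Agent.LE Pool.Agent.L5 Pool.Agent.NAB Pool.Agent.NE
open Pool.Agent.ZB (Pm Om KZ EQ BQ lQ MZc BDK)

theorem YSN_van {G : Type} [Group G] {N H : Subgroup G} (hH : H ≤ N) {ψ : G → ℂ} (hψ : ψ ∈ IrrOn H) :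
    ∀ x, x ∉ N → ψ x = 0 := fun x hx => hψ.1 x (fun h => hx (hH h))

theorem YSN_cj {G : Type} [Group G] {N : Subgroup G} {n : G} (hn : n ∈ N) {ψ : G → ℂ} (hψ : ∀ x, x ∉ N → ψ x = 0) :
    ∀ x, x ∉ N → cjF n ψ x = 0 := by
  intro x hx
  have h1 : cjF n ψ x = ψ (n⁻¹ * x * n) := by
    unfold cjF funMap
    simp [MulAut.conj_symm_apply]
  rw [h1]
  apply hψ
  intro h
  apply hx
  have h2 : x = n * (n⁻¹ * x * n) * n⁻¹ := by group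
  rw [h2]
  exact N.mul_mem (N.mul_mem hn h) (N.inv_mem hn)

theorem YSN_st {G : Type} [Group G] {N Z : Subgroup G} {t : ℕ} (ν : Z →* ℂˣ) {θ : G → ℂ} (hθ : ∀ x, x ∉ N → θ x = 0) :
    ∀ x, x ∉ N → st Z t ν θ x = 0 := by
  intro x hx
  unfold st
  rw [hθ x hx, mul_zero]

theorem YSN_inj {G : Type} [Group G] {N : Subgroup G} {ψ ψ' : G → ℂ} (h1 : ∀ x, x ∉ N → ψ x = 0) (h2 : ∀ x, x ∉ N → ψ' x = 0)
    (h : rN N ψ = rN N ψ') : ψ = ψ' := by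
  funext x
  by_cases hx : x ∈ N
  · exact congrFun h ⟨x, hx⟩
  · rw [h1 x hx, h2 x hx]

theorem YSN (hYST : YST_stmt) (hYTR : YTR_stmt) (hTR1 : TR1_stmt) (hTR2 : TR2_stmt) (hTR3 : TR3_stmt) (hNTK : NTK_stmt)
    (hNEG : NEG_stmt) : YSN_stmt := by
  classical
  intro p e m t M hM G _ _ N χ Z z x hZ
  have hzN : z ∈ N := hZ.uc.zm
  have hxN : x ∈ N := hZ.uc.xm
  have hZN : Z ≤ N := by
    rw [← hZ.zz]
    unfold Zg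
    rw [Subgroup.zpowers_le]
    exact N.pow_mem hzN _
  obtain ⟨t1, t2, t3, ⟨t4, t5⟩, t6, t7, t8, t9, t10⟩ := hYTR p e m t M hM G N Z hZN
  have htop : N.subgroupOf N = ⊤ := Subgroup.subgroupOf_self N
  have hχN : ∀ y, y ∉ N → χ y = 0 := YSN_van le_rfl hZ.ch
  obtain ⟨b1, b2, b3⟩ := hTR1 G N N le_rfl
  have hEg : ∀ y : N, Eg p e y = (Eg p e (y : G)).subgroupOf N := fun y =>
    ((hNEG p e hM.pr G z).2.2.2.2.2.2 N y).symm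
  have hE : Eg p e z ≤ N := (hNEG p e hM.pr G z).2.1 N hzN
  have hnE : (⊤ ⊓ nz (Eg p e (⟨z, hzN⟩ : N)) : Subgroup N) = (N ⊓ nz (Eg p e z)).subgroupOf N := by
    rw [top_inf_eq, hEg, ((hTR3 p G N).1 (Eg p e z) hE).2, Subgroup.inf_subgroupOf_left]
  have hcz : (⊤ ⊓ cz (Z.subgroupOf N) : Subgroup N) = (N ⊓ cz Z).subgroupOf N := by
    rw [top_inf_eq, t4]
  have hnz : (⊤ ⊓ nz (Z.subgroupOf N) : Subgroup N) = (N ⊓ nz Z).subgroupOf N := by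
    rw [top_inf_eq, t5]
  have hχ' : rN N χ ∈ IrrOn (⊤ : Subgroup N) := by
    have h := (b1 χ hχN).1 hZ.ch
    rwa [htop] at h
  have hU' : Ucl p e m M (⊤ : Subgroup N) (rN N χ) ⟨z, hzN⟩ ⟨x, hxN⟩ := by
    have h := (hNTK p e m M hM G N N le_rfl χ hχN ⟨z, hzN⟩ ⟨x, hxN⟩).2 hZ.uc
    rwa [htop] at h
  have hZ' : ZN p e m t M (⊤ : Subgroup N) (rN N χ) (Z.subgroupOf N) ⟨z, hzN⟩ ⟨x, hxN⟩ :=
    ⟨hZ.em, hZ.eb, t1 hZ.tx, hχ', hU', by rw [t2, hZ.zz]⟩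
  have hS := hYST p e m t M hM N (rN N χ) (Z.subgroupOf N) ⟨z, hzN⟩ ⟨x, hxN⟩ hZ'
  have hCN : N ⊓ cz Z ≤ N := inf_le_left
  have hKN : N ⊓ nz (Eg p e z) ≤ N := inf_le_left
  -- the sets GN
  have gN : ∀ L ≤ N, ∀ ψ : G → ℂ, (∀ y, y ∉ N → ψ y = 0) →
      (ψ ∈ GN p e m M N χ L Z ↔ rN N ψ ∈ GN p e m M (⊤ : Subgroup N) (rN N χ) (L.subgroupOf N) (Z.subgroupOf N)) :=
    fun L hL ψ hψ => t6 χ hχN L hL ψ hψ
  have gV : ∀ L ≤ N, ∀ ψ : G → ℂ, ψ ∈ GN p e m M N χ L Z → ∀ y, y ∉ N → ψ y = 0 :=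
    fun L hL ψ hψ => YSN_van hL hψ.1
  have gC : ∀ ψ : G → ℂ, (∀ y, y ∉ N → ψ y = 0) →
      (ψ ∈ GN p e m M N χ (N ⊓ cz Z) Z ↔ rN N ψ ∈ GN p e m M (⊤ : Subgroup N) (rN N χ) (⊤ ⊓ cz (Z.subgroupOf N)) (Z.subgroupOf N)) := by
    intro ψ hψ
    rw [hcz]
    exact gN _ hCN ψ hψ
  have gCs : ∀ θ' ∈ GN p e m M (⊤ : Subgroup N) (rN N χ) (⊤ ⊓ cz (Z.subgroupOf N)) (Z.subgroupOf N),
      ∃ θ ∈ GN p e m M N χ (N ⊓ cz Z) Z, rN N θ = θ' := by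
    intro θ' hθ'
    have h1 : θ' ∈ IrrOn ((N ⊓ cz Z).subgroupOf N) := by
      rw [← hcz]; exact hθ'.1
    obtain ⟨θ, h2, rfl⟩ := t10 _ hCN θ' h1
    exact ⟨θ, (gC θ (YSN_van hCN h2)).2 hθ', rfl⟩
  -- the homomorphisms
  have nuS : ∀ ν' : (Z.subgroupOf N) →* ℂˣ, ∃ ν : Z →* ℂˣ, ν.comp (Subgroup.subgroupOfEquivOfLe hZN).toMonoidHom = ν' := by
    intro ν'
    refine ⟨ν'.comp (Subgroup.subgroupOfEquivOfLe hZN).symm.toMonoidHom, ?_⟩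
    ext y
    simp
  -- mt
  have mtC : ∀ φ ψ : G → ℂ, mt (⊤ ⊓ cz (Z.subgroupOf N) : Subgroup N) (rN N φ) (rN N ψ) = mt (N ⊓ cz Z) φ ψ := by
    intro φ ψ
    rw [hcz]
    exact t7 _ hCN φ ψ
  -- orbits
  have oH : ∀ θ₀ θ : G → ℂ, (∀ y, y ∉ N → θ₀ y = 0) → (∀ y, y ∉ N → θ y = 0) →
      iH (⊤ : Subgroup N) (Z.subgroupOf N) (rN N θ₀) (rN N θ) = iH N Z θ₀ θ := by
    intro θ₀ θ h0 h1
    have hiff : (∃ h ∈ (⊤ : Subgroup N) ⊓ nz (Z.subgroupOf N), cjF h (rN N θ₀) = rN N θ) ↔ (∃ h ∈ N ⊓ nz Z, cjF h θ₀ = θ) := by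
      constructor
      · rintro ⟨h, hh, hc⟩
        rw [hnz, Subgroup.mem_subgroupOf] at hh
        refine ⟨h, hh, ?_⟩
        rw [t8] at hc
        exact YSN_inj (YSN_cj h.2 h0) h1 hc
      · rintro ⟨h, hh, hc⟩
        refine ⟨⟨h, hh.1⟩, ?_, ?_⟩
        · rw [hnz, Subgroup.mem_subgroupOf]; exact hh
        · rw [t8, hc]
    unfold iH
    simp only [hiff]
  have rW : ∀ ψ θ₀ : G → ℂ, (∀ y, y ∉ N → ψ y = 0) → (∀ y, y ∉ N → θ₀ y = 0) → ∀ ε : ℂ,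
      (Rw p e m t M (⊤ : Subgroup N) (rN N χ) (Z.subgroupOf N) (rN N ψ) (rN N θ₀) ε ↔ Rw p e m t M N χ Z ψ θ₀ ε) := by
    intro ψ θ₀ hψ h0 ε
    constructor
    · intro h θ hθ ν
      have hθN := gV _ hCN θ hθ
      have h1 := h (rN N θ) ((gC θ hθN).1 hθ) (ν.comp (Subgroup.subgroupOfEquivOfLe hZN).toMonoidHom)
      rw [t3, mtC, mtC, oH θ₀ θ h0 hθN, oH θ₀ _ h0 (YSN_st ν hθN)] at h1
      exact h1
    · intro h θ' hθ' ν'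
      obtain ⟨θ, hθ, rfl⟩ := gCs θ' hθ'
      obtain ⟨ν, rfl⟩ := nuS ν'
      have hθN := gV _ hCN θ hθ
      rw [t3, mtC, mtC, oH θ₀ θ h0 hθN, oH θ₀ _ h0 (YSN_st ν hθN)]
      exact h θ hθ ν
  have fF : ∀ L ≤ N, ∀ ψ θ₀ : G → ℂ, (∀ y, y ∉ N → ψ y = 0) → (∀ y, y ∉ N → θ₀ y = 0) →
      (rN N ψ ∈ FF p e m t M (⊤ : Subgroup N) (rN N χ) (Z.subgroupOf N) (L.subgroupOf N) (rN N θ₀) ↔ ψ ∈ FF p e m t M N χ Z L θ₀) := by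
    intro L hL ψ θ₀ hψ h0
    constructor
    · rintro ⟨h1, ε, h2, h3⟩
      exact ⟨(gN L hL ψ hψ).2 h1, ε, h2, (rW ψ θ₀ hψ h0 ε).1 h3⟩
    · rintro ⟨h1, ε, h2, h3⟩
      exact ⟨(gN L hL ψ hψ).1 h1, ε, h2, (rW ψ θ₀ hψ h0 ε).2 h3⟩
  have l2 : ∀ L, L2 p e N z L → L ≤ N ∧ L2 p e (⊤ : Subgroup N) ⟨z, hzN⟩ (L.subgroupOf N) := by
    rintro L (rfl | rfl)
    · exact ⟨le_rfl, Or.inl htop⟩
    · exact ⟨hKN, Or.inr hnE.symm⟩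
  refine ⟨?_, ?_, ?_, ?_, ?_, ?_, ?_⟩
  · intro L hL ψ hψ
    obtain ⟨hLN, hL'⟩ := l2 L hL
    have hψN := gV L hLN ψ hψ
    obtain ⟨θ', h1, h2⟩ := hS.ex _ hL' (rN N ψ) ((gN L hLN ψ hψN).1 hψ)
    obtain ⟨θ, hθ, rfl⟩ := gCs θ' h1
    exact ⟨θ, hθ, (fF L hLN ψ θ hψN (gV _ hCN θ hθ)).1 h2⟩
  · intro L hL θ₀ h0
    obtain ⟨hLN, hL'⟩ := l2 L hL
    have h0N := gV _ hCN θ₀ h0
    have h1 := hS.ct _ hL' (rN N θ₀) ((gC θ₀ h0N).1 h0)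
    have h2 : Nat.card (⊤ ⊓ cz (Z.subgroupOf N) : Subgroup N) = Nat.card (N ⊓ cz Z : Subgroup G) := by
      rw [hcz]
      exact Nat.card_congr (Subgroup.subgroupOfEquivOfLe hCN).toEquiv
    have h3 : FF p e m t M (⊤ : Subgroup N) (rN N χ) (Z.subgroupOf N) (L.subgroupOf N) (rN N θ₀) =
        rN N '' FF p e m t M N χ Z L θ₀ := by
      ext ψ'
      constructor
      · intro h
        obtain ⟨ψ, h4, rfl⟩ := t10 L hLN ψ' h.1.1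
        exact ⟨ψ, (fF L hLN ψ θ₀ (YSN_van hLN h4) h0N).1 h, rfl⟩
      · rintro ⟨ψ, h4, rfl⟩
        exact (fF L hLN ψ θ₀ (gV L hLN ψ h4.1) h0N).2 h4
    have h4 : (FF p e m t M (⊤ : Subgroup N) (rN N χ) (Z.subgroupOf N) (L.subgroupOf N) (rN N θ₀)).ncard =
        (FF p e m t M N χ Z L θ₀).ncard := by
      rw [h3]
      apply Set.InjOn.ncard_image
      intro ψ hψ ψ' hψ' he
      exact YSN_inj (gV L hLN ψ hψ.1) (gV L hLN ψ' hψ'.1) he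
    have hmem : ∀ y : N, y ∈ (⊤ : Subgroup N) ⊓ nz (Z.subgroupOf N) ↔ (y : G) ∈ N ⊓ nz Z := by
      intro y
      rw [hnz, Subgroup.mem_subgroupOf]
    have h5 : Nat.card {h : N // h ∈ (⊤ : Subgroup N) ⊓ nz (Z.subgroupOf N) ∧ cjF h (rN N θ₀) = rN N θ₀} =
        Nat.card {h : G // h ∈ N ⊓ nz Z ∧ cjF h θ₀ = θ₀} := by
      refine Nat.card_congr ⟨fun h => ⟨(h.1 : G), ?_, ?_⟩, fun h => ⟨⟨h.1, h.2.1.1⟩, ?_, ?_⟩, ?_, ?_⟩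
      · exact (hmem h.1).1 h.2.1
      · have h6 : cjF h.1 (rN N θ₀) = rN N θ₀ := h.2.2
        rw [t8] at h6
        exact YSN_inj (YSN_cj h.1.2 h0N) h0N h6
      · exact (hmem _).2 h.2.1
      · rw [t8, h.2.2]
      · intro h; rfl
      · intro h; rfl
    rw [h2, h4, h5] at h1
    exact h1
  · intro θ₀ h0 ψ hψ ψ₁ hψ₁ d
    have h0N := gV _ hCN θ₀ h0
    have hψN := gV N le_rfl ψ hψ.1
    have hψ₁N := gV _ hKN ψ₁ hψ₁.1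
    have h1 : rN N ψ ∈ FF p e m t M (⊤ : Subgroup N) (rN N χ) (Z.subgroupOf N) (⊤ : Subgroup N) (rN N θ₀) := by
      have h := (fF N le_rfl ψ θ₀ hψN h0N).2 hψ
      rwa [htop] at h
    have h2 : rN N ψ₁ ∈ FF p e m t M (⊤ : Subgroup N) (rN N χ) (Z.subgroupOf N) (⊤ ⊓ nz (Eg p e (⟨z, hzN⟩ : N))) (rN N θ₀) := by
      rw [hnE]
      exact (fF _ hKN ψ₁ θ₀ hψ₁N h0N).2 hψ₁
    have h3 := hS.df (rN N θ₀) ((gC θ₀ h0N).1 h0) (rN N ψ) h1 (rN N ψ₁) h2 d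
    rw [hnE, t9 _ hKN ψ₁ d, ← htop, t9 N le_rfl ψ d] at h3
    exact h3
  · intro L hCL hLN ψ hψ hψn θ hθ ν
    have hψN := YSN_van hLN hψ
    have hθN := gV _ hCN θ hθ
    have h1 : (⊤ ⊓ cz (Z.subgroupOf N) : Subgroup N) ≤ L.subgroupOf N := by
      rw [hcz]
      intro y hy
      rw [Subgroup.mem_subgroupOf] at hy ⊢
      exact hCL hy
    have h2 : rN N ψ ∈ IrrOn (L.subgroupOf N) := ((hTR1 G N L hLN).1 ψ hψN).1 hψ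
    have h3 : rN N ψ ∉ GN p e m M (⊤ : Subgroup N) (rN N χ) (L.subgroupOf N) (Z.subgroupOf N) := by
      intro h
      exact hψn ((gN L hLN ψ hψN).2 h)
    have h4 := hS.ou _ h1 le_top (rN N ψ) h2 h3 (rN N θ) ((gC θ hθN).1 hθ) (ν.comp (Subgroup.subgroupOfEquivOfLe hZN).toMonoidHom)
    rw [t3, mtC, mtC] at h4
    exact h4
  · intro θ hθ ν
    have hθN := gV _ hCN θ hθ
    have h1 := hS.sm (rN N θ) ((gC θ hθN).1 hθ) (ν.comp (Subgroup.subgroupOfEquivOfLe hZN).toMonoidHom)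
    rw [t3] at h1
    refine ⟨(gC _ (YSN_st ν hθN)).2 h1.1, ?_⟩
    have h2 := h1.2
    rw [hcz] at h2
    exact ((hTR2 G M N).2.1 _ hCN _ _ (YSN_st ν hθN) hθN).2 h2
  · intro θ hθ
    have hθN := gV _ hCN θ hθ
    have h1 := hS.sz (rN N θ) ((gC θ hθN).1 hθ)
    have hoV : ∀ θ' : G → ℂ, orb Z t θ θ' → ∀ y, y ∉ N → θ' y = 0 := by
      rintro θ' ⟨ν, rfl⟩
      exact YSN_st ν hθN
    have hof : ∀ θ' : G → ℂ, orb Z t θ θ' → orb (Z.subgroupOf N) t (rN N θ) (rN N θ') := by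
      rintro θ' ⟨ν, rfl⟩
      exact ⟨ν.comp (Subgroup.subgroupOfEquivOfLe hZN).toMonoidHom, (t3 ν θ).symm⟩
    have hbij : Function.Bijective (fun θ' : {θ' : G → ℂ // orb Z t θ θ'} =>
        (⟨rN N θ'.1, hof θ'.1 θ'.2⟩ : {θ' : N → ℂ // orb (Z.subgroupOf N) t (rN N θ) θ'})) := by
      constructor
      · intro a b hab
        apply Subtype.ext
        exact YSN_inj (hoV a.1 a.2) (hoV b.1 b.2) (congrArg Subtype.val hab)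
      · rintro ⟨θ', ν', rfl⟩
        obtain ⟨ν, rfl⟩ := nuS ν'
        refine ⟨⟨st Z t ν θ, ν, rfl⟩, ?_⟩
        apply Subtype.ext
        exact (t3 ν θ).symm
    have he := Equiv.ofBijective _ hbij
    have := h1.1
    refine ⟨Finite.of_equiv _ he.symm, ?_⟩
    rw [Nat.card_congr he]
    exact h1.2
  · intro θ hθ n hn hs k hk
    have hθN := gV _ hCN θ hθ
    have h1 := hS.fx (rN N θ) ((gC θ hθN).1 hθ) ⟨n, hn.1⟩ (by rw [hnz, Subgroup.mem_subgroupOf]; exact hn) (by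
      rw [hcz, t8]
      exact ((hTR2 G M N).2.1 _ hCN _ _ (YSN_cj hn.1 hθN) hθN).1 hs) k (by
      rw [t4, Subgroup.mem_subgroupOf]
      exact ⟨N.pow_mem hn.1 _, hk⟩)
    rw [t4, Subgroup.mem_subgroupOf] at h1
    exact h1.2

end Pool.Agent.ND.NY.E
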