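-- PORT BY SCRIPT of helper4/NE/YTR.lean to the class of THEOREM ZD
import Pool.Agent.helper70.NZ.SpecA

/-!
# Row ne:YTR (MP_baa4d7_al): the dictionary between the type `N` and the functions on `G`
-/

set_option autoImplicit false

namespace Pool.Agent.ND.NY.E

open Pool.Agent.helper58.DC Pool.Agent.DI Pool.Agent.GR Pool.Agent.OB Pool.Agent.DR Pool.Agent.FI Pool.Agent.FI3 Pool.Agent.FI4 Pool.Agent.FI4I Pool.Agent.LE Pool.Agent.L5 Pool.Agent.NAB Pool.Agent.NE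
open Pool.Agent.ZB (Pm Om KZ EQ BQ lQ MZc BDK)

theorem YTR_zp {G : Type} [Group G] (N : Subgroup G) (z : N) :
    Subgroup.zpowers z = (Subgroup.zpowers (z : G)).subgroupOf N := by
  ext y
  rw [Subgroup.mem_subgroupOf, Subgroup.mem_zpowers_iff, Subgroup.mem_zpowers_iff]
  constructor
  · rintro ⟨k, hk⟩
    refine ⟨k, ?_⟩
    rw [← hk]
    simp
  · rintro ⟨k, hk⟩
    refine ⟨k, Subtype.ext ?_⟩
    rw [← hk]
    simp

theorem YTR_Zg {G : Type} [Group G] (p e : ℕ) (m : Pm) (N : Subgroup G) (z : N) :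
    Zg p e m.a z = (Zg p e m.a (z : G)).subgroupOf N := by
  unfold Zg
  rw [YTR_zp]
  simp

theorem YTR_mt {G : Type} [Group G] [Finite G] (N L : Subgroup G) (hL : L ≤ N) (φ ψ : G → ℂ) :
    mt (L.subgroupOf N) (rN N φ) (rN N ψ) = mt L φ ψ := by
  unfold Pool.Agent.FI.mt
  rw [Nat.card_congr (Subgroup.subgroupOfEquivOfLe hL).toEquiv]
  congr 1
  refine finsum_mem_eq_of_bijOn (fun x : N => (x : G)) ⟨?_, ?_, ?_⟩ ?_
  · intro x hx
    exact hx
  · intro x _ y _ h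
    exact Subtype.ext h
  · intro x hx
    exact ⟨⟨x, hL hx⟩, hx, rfl⟩
  · intro x _
    rfl

theorem YTR_def {p : ℕ} {G : Type} [Group G] {N H : Subgroup G} (hH : H ≤ N) (ψ : G → ℂ) (d : ℤ) :
    Defect p (H.subgroupOf N) (rN N ψ) d ↔ Defect p H ψ d := by
  have h1 : rN N ψ 1 = ψ 1 := rfl
  unfold Defect
  rw [Nat.card_congr (Subgroup.subgroupOfEquivOfLe hH).toEquiv, h1]

theorem YTR (hTR1 : TR1_stmt) (hTR2 : TR2_stmt) (hTR3 : TR3_stmt) (hNTK : NTK_stmt) : YTR_stmt := by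
  intro p e m t M hM G _ _ N Z hZN
  have htop : N.subgroupOf N = ⊤ := Subgroup.subgroupOf_self N
  obtain ⟨c1, c2, c3, c4, -⟩ := hTR3 p G N
  refine ⟨?_, ?_, ?_, ⟨?_, ?_⟩, ?_, ?_, ?_, ?_, ?_⟩
  · intro h
    refine ⟨fun u hu => Subtype.ext ?_, fun v hv => Subtype.ext ?_⟩
    · have := h.pe (u : G) ((c4 u).2.1 hu)
      simpa using this
    · have := h.re (v : G) ((c4 v).1.1 hv)
      simpa using this
  · exact fun z => YTR_Zg p e m N z
  · intro ν θ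
    funext y
    show lam (Z.subgroupOf N) t (ν.comp (Subgroup.subgroupOfEquivOfLe hZN).toMonoidHom) y * θ (y : G) = lam Z t ν (y : G) * θ (y : G)
    unfold lam
    have hiff : y ^ t ∈ Z.subgroupOf N ↔ (y : G) ^ t ∈ Z := by
      rw [Subgroup.mem_subgroupOf, Subgroup.coe_pow]
    by_cases h : (y : G) ^ t ∈ Z
    · rw [dif_pos (hiff.2 h), dif_pos h]
      rfl
    · rw [dif_neg (fun h' => h (hiff.1 h')), dif_neg h]
  · rw [(c1 Z hZN).1, Subgroup.inf_subgroupOf_left]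
  · rw [(c1 Z hZN).2, Subgroup.inf_subgroupOf_left]
  · intro χ hχ L hL ψ hψ
    have hsb := (hTR2 G M N).2.1 N le_rfl ψ χ hψ hχ
    rw [htop] at hsb
    constructor
    · rintro ⟨h1, h2, z, x, h3, h4⟩
      refine ⟨((hTR1 G N L hL).1 ψ hψ).1 h1, hsb.1 h2, ⟨z, hL h3.zm⟩, ⟨x, hL h3.xm⟩, ?_, ?_⟩
      · exact (hNTK p e m M hM G N L hL ψ hψ ⟨z, hL h3.zm⟩ ⟨x, hL h3.xm⟩).2 h3
      · rw [YTR_Zg, h4]
    · rintro ⟨h1, h2, z, x, h3, h4⟩
      refine ⟨((hTR1 G N L hL).1 ψ hψ).2 h1, hsb.2 h2, z, x, ?_, ?_⟩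
      · exact (hNTK p e m M hM G N L hL ψ hψ z x).1 h3
      · rw [YTR_Zg] at h4
        have h5 : Zg p e m.a (z : G) ≤ N := by
          unfold Zg
          rw [Subgroup.zpowers_le]
          exact N.pow_mem z.2 _
        have h6 := Subgroup.subgroupOf_inj.1 h4
        rwa [inf_eq_left.2 h5, inf_eq_left.2 hZN] at h6
  · exact fun L hL φ ψ => YTR_mt N L hL φ ψ
  · intro n ψ
    exact (hTR2 G M N).2.2.2 n ψ
  · exact fun L hL ψ d => YTR_def hL ψ d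
  · intro L hL ψ' hψ'
    exact (hTR1 G N L hL).2.1 ψ' hψ'

end Pool.Agent.ND.NY.E
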